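import Mathlib

/-!
# Sum graphs and the sum number
-/

namespace MPa7f73e

/-- `H` is a sum graph: there is an injective labelling of the vertices by positive integers
such that two distinct vertices are adjacent if and only if the sum of their labels is the
label of a vertex. -/
def IsSumGraph {V : Type} (H : SimpleGraph V) : Prop :=
  ∃ l : V → ℤ, Function.Injective l ∧ (∀ v, 0 < l v) ∧
    ∀ u v, u ≠ v → (H.Adj u v ↔ ∃ w, l u + l v = l w)

/-- The sum number: the least `r` such that the disjoint union of `G` with `r` isolated
vertices is a sum graph. -/
noncomputable def sumNumber {V : Type} (G : SimpleGraph V) : ℕ :=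
  sInf {r : ℕ | IsSumGraph (G ⊕g (⊥ : SimpleGraph (Fin r)))}

end MPa7f73e
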