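import Mathlib

/-!
# The exit norm on integers attached to a finite set

For a finite set `M` of integers, `nu M d` counts the `w ∈ M` with `w + d ∉ M`.
-/

namespace MPa7f73e

open Finset

/-- number of exits of the translation by `d` -/
def nu (M : Finset ℤ) (d : ℤ) : ℕ := (M.filter (fun w => w + d ∉ M)).card

lemma nu_zero (M : Finset ℤ) : nu M 0 = 0 := by
  simp [nu]

lemma nu_add (M : Finset ℤ) (d e : ℤ) : nu M (d + e) ≤ nu M d + nu M e := by
  unfold nu
  have hsub : M.filter (fun w => w + (d + e) ∉ M) ⊆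
      M.filter (fun w => w + d ∉ M) ∪
        (M.filter (fun w => w + e ∉ M)).image (fun w => w - d) := by
    intro w hw
    rw [mem_filter] at hw
    rw [mem_union, mem_filter, mem_image]
    by_cases h : w + d ∈ M
    · right
      refine ⟨w + d, ?_, by ring⟩
      rw [mem_filter]
      refine ⟨h, ?_⟩
      rw [add_assoc]
      exact hw.2
    · left
      exact ⟨hw.1, h⟩
  calc (M.filter (fun w => w + (d + e) ∉ M)).card
      ≤ (M.filter (fun w => w + d ∉ M) ∪
        (M.filter (fun w => w + e ∉ M)).image (fun w => w - d)).card := card_le_card hsub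
    _ ≤ (M.filter (fun w => w + d ∉ M)).card +
        ((M.filter (fun w => w + e ∉ M)).image (fun w => w - d)).card := card_union_le _ _
    _ ≤ (M.filter (fun w => w + d ∉ M)).card + (M.filter (fun w => w + e ∉ M)).card :=
        Nat.add_le_add_left card_image_le _

lemma nu_neg (M : Finset ℤ) (d : ℤ) : nu M (-d) = nu M d := by
  classical
  unfold nu
  have h1 : (M.filter (fun w => w + d ∈ M)).card = (M.filter (fun w => w + -d ∈ M)).card := by
    refine Finset.card_bij (fun (w : ℤ) _ => w + d) ?_ ?_ ?_
    · intro w hw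
      rw [mem_filter] at hw ⊢
      refine ⟨hw.2, ?_⟩
      have : w + d + -d = w := by ring
      rw [this]; exact hw.1
    · intro a _ b _ hab
      simpa using hab
    · intro b hb
      rw [mem_filter] at hb
      refine ⟨b + -d, ?_, by ring⟩
      rw [mem_filter]
      refine ⟨hb.2, ?_⟩
      have : b + -d + d = b := by ring
      rw [this]; exact hb.1
  have h2 := card_filter_add_card_filter_not (s := M) (fun w => w + d ∈ M)
  have h3 := card_filter_add_card_filter_not (s := M) (fun w => w + -d ∈ M)
  omega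

lemma nu_sub (M : Finset ℤ) (d e : ℤ) : nu M (d - e) ≤ nu M d + nu M e := by
  rw [sub_eq_add_neg, ← nu_neg M e]
  exact nu_add M d (-e)

lemma nu_nsmul (M : Finset ℤ) (d : ℤ) (n : ℕ) : nu M ((n : ℤ) * d) ≤ n * nu M d := by
  induction n with
  | zero => simp [nu_zero]
  | succ k ih =>
    have : ((k + 1 : ℕ) : ℤ) * d = (k : ℤ) * d + d := by push_cast; ring
    rw [this]
    calc nu M ((k : ℤ) * d + d) ≤ nu M ((k : ℤ) * d) + nu M d := nu_add _ _ _
      _ ≤ k * nu M d + nu M d := by gcongr
      _ = (k + 1) * nu M d := by ring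

/-- A subset of `M` with all elements in distinct classes mod `d` has at most `nu M d`
elements. In particular this holds for subsets contained in an interval of length `d`. -/
lemma window (M : Finset ℤ) (d : ℤ) (hd : 0 < d) (W : Finset ℤ) (hW : W ⊆ M)
    (a : ℤ) (hWa : ∀ w ∈ W, a ≤ w ∧ w < a + d) : W.card ≤ nu M d := by
  classical
  have hinj : Set.InjOn (fun w : ℤ => w % d) (W : Set ℤ) := by
    intro u hu v hv huv
    have hu' := hWa u hu
    have hv' := hWa v hv
    simp only at huv
    have h1 : d ∣ u - v := Int.ModEq.dvd (show v ≡ u [ZMOD d] from huv.symm)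
    obtain ⟨k, hk⟩ := h1
    have h2 : -d < d * k := by rw [← hk]; omega
    have h3 : d * k < d := by rw [← hk]; omega
    have hk0 : k = 0 := by
      have : k < 1 := by nlinarith
      have : -1 < k := by nlinarith
      omega
    rw [hk0] at hk
    omega
  have hcard : W.card = (W.image (fun w : ℤ => w % d)).card := (card_image_of_injOn hinj).symm
  rw [hcard]
  have hsub : W.image (fun w : ℤ => w % d) ⊆
      (M.filter (fun w => w + d ∉ M)).image (fun w : ℤ => w % d) := by
    intro c hc
    rw [mem_image] at hc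
    obtain ⟨w, hw, rfl⟩ := hc
    have hne : (M.filter (fun u => u % d = w % d)).Nonempty :=
      ⟨w, by rw [mem_filter]; exact ⟨hW hw, rfl⟩⟩
    obtain ⟨u, hu, hmax⟩ := exists_max_image _ (fun u : ℤ => u) hne
    rw [mem_filter] at hu
    rw [mem_image]
    refine ⟨u, ?_, hu.2⟩
    rw [mem_filter]
    refine ⟨hu.1, ?_⟩
    intro hud
    have := hmax (u + d) (by
      rw [mem_filter]
      refine ⟨hud, ?_⟩
      rw [Int.add_emod_right]
      exact hu.2)
    omega
  exact (card_le_card hsub).trans card_image_le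

/-- If the set `D` of positive integers has small norm, it is small. -/
lemma card_le (M : Finset ℤ) (k : ℕ) (hM : k * (k + 1) < M.card) (D : Finset ℤ)
    (hD : ∀ d ∈ D, 0 < d ∧ nu M d ≤ k) : D.card ≤ k := by
  classical
  by_contra hcon
  push Not at hcon
  obtain ⟨D', hD'sub, hD'card⟩ := exists_subset_card_eq (s := D) (n := k + 1) (by omega)
  -- find w with no exits
  have hw : ∃ w ∈ M, ∀ d ∈ D', w + d ∈ M := by
    by_contra hno
    push Not at hno
    have hsub : M ⊆ D'.biUnion (fun d => M.filter (fun w => w + d ∉ M)) := by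
      intro w hw
      obtain ⟨d, hd, hwd⟩ := hno w hw
      rw [mem_biUnion]
      exact ⟨d, hd, by rw [mem_filter]; exact ⟨hw, hwd⟩⟩
    have h1 := card_le_card hsub
    have h2 : (D'.biUnion (fun d => M.filter (fun w => w + d ∉ M))).card ≤ D'.card * k :=
      card_biUnion_le_card_mul _ _ _ (fun d hd => (hD d (hD'sub hd)).2)
    rw [hD'card] at h2
    have : (k + 1) * k = k * (k + 1) := by ring
    omega
  obtain ⟨w, _, hwall⟩ := hw
  have hne : D'.Nonempty := by
    rw [← card_pos]; omega
  obtain ⟨p, hp, hpmax⟩ := exists_max_image D' (fun d : ℤ => d) hne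
  have hwin := window M p (hD p (hD'sub hp)).1 (D'.image (fun d => w + d))
    (by
      intro y hy
      rw [mem_image] at hy
      obtain ⟨d, hd, rfl⟩ := hy
      exact hwall d hd) (w + 1)
    (by
      intro y hy
      rw [mem_image] at hy
      obtain ⟨d, hd, rfl⟩ := hy
      have h1 := (hD d (hD'sub hd)).1
      have h2 := hpmax d hd
      constructor <;> omega)
  rw [card_image_of_injective _ (add_right_injective w), hD'card] at hwin
  have := (hD p (hD'sub hp)).2
  omega

lemma le_mul_of_nu (M : Finset ℤ) (c k : ℕ) (ρ p : ℤ) (hρ : 0 < ρ) (hp : 0 < p)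
    (hc : nu M ρ ≤ c) (hk : nu M p ≤ k)
    (hM : (k * c + (k * c + 1) * k) * (k * c + (k * c + 1) * k + 1) < M.card) :
    p ≤ k * ρ := by
  classical
  by_contra hcon
  push Not at hcon
  set D : Finset ℤ := ((range (k + 1)) ×ˢ (range (k * c + 1))).image
    (fun q : ℕ × ℕ => (q.1 : ℤ) * ρ + ((q.2 + 1 : ℕ) : ℤ) * p) with hDdef
  have hinj : Set.InjOn (fun q : ℕ × ℕ => (q.1 : ℤ) * ρ + ((q.2 + 1 : ℕ) : ℤ) * p)
      (((range (k + 1)) ×ˢ (range (k * c + 1)) : Finset (ℕ × ℕ)) : Set (ℕ × ℕ)) := by
    rintro ⟨i, j⟩ hij ⟨i', j'⟩ hij' heq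
    simp only [coe_product, Set.mem_prod, coe_range, Set.mem_Iio] at hij hij'
    simp only at heq
    push_cast at heq
    have hjj : j = j' := by
      by_contra hne
      rcases Nat.lt_or_gt_of_ne hne with hlt | hlt
      · -- (i - i') ρ = (j' - j) p ≥ p > kρ
        have h1 : ((i : ℤ) - i') * ρ = ((j' : ℤ) - j) * p := by linarith
        have h2 : p ≤ ((j' : ℤ) - j) * p := by
          have : (1 : ℤ) ≤ (j' : ℤ) - j := by omega
          nlinarith
        have h3 : ((i : ℤ) - i') * ρ ≤ k * ρ := by
          have : (i : ℤ) - i' ≤ k := by omega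
          nlinarith
        linarith
      · have h1 : ((i' : ℤ) - i) * ρ = ((j : ℤ) - j') * p := by linarith
        have h2 : p ≤ ((j : ℤ) - j') * p := by
          have : (1 : ℤ) ≤ (j : ℤ) - j' := by omega
          nlinarith
        have h3 : ((i' : ℤ) - i) * ρ ≤ k * ρ := by
          have : (i' : ℤ) - i ≤ k := by omega
          nlinarith
        linarith
    subst hjj
    have h1 : (i : ℤ) * ρ = i' * ρ := by linarith
    have h2 : (i : ℤ) = i' := by
      exact mul_right_cancel₀ (ne_of_gt hρ) h1
    have h3 : i = i' := by exact_mod_cast h2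
    rw [h3]
  have hcard : D.card = (k + 1) * (k * c + 1) := by
    rw [hDdef, card_image_of_injOn hinj, card_product, card_range, card_range]
  have hle := card_le M (k * c + (k * c + 1) * k) hM D (by
    intro d hd
    rw [hDdef, mem_image] at hd
    obtain ⟨⟨i, j⟩, hij, rfl⟩ := hd
    rw [mem_product, mem_range, mem_range] at hij
    simp only at hij ⊢
    constructor
    · have h1 : (0 : ℤ) ≤ (i : ℤ) * ρ := by positivity
      have h2 : (0 : ℤ) < ((j + 1 : ℕ) : ℤ) * p := by positivity
      linarith
    · calc nu M ((i : ℤ) * ρ + ((j + 1 : ℕ) : ℤ) * p)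
          ≤ nu M ((i : ℤ) * ρ) + nu M (((j + 1 : ℕ) : ℤ) * p) := nu_add _ _ _
        _ ≤ i * nu M ρ + (j + 1) * nu M p := add_le_add (nu_nsmul _ _ _) (nu_nsmul _ _ _)
        _ ≤ k * c + (k * c + 1) * k := by
            have h1 : i ≤ k := by omega
            have h2 : j + 1 ≤ k * c + 1 := by omega
            gcongr)
  rw [hcard] at hle
  have : (k + 1) * (k * c + 1) = k * c + (k * c + 1) * k + 1 := by ring
  omega

/-- the sequence of bounds in the Euclid argument -/
def cseq (K : ℕ) : ℕ → ℕ
  | 0 => K
  | (i + 1) => K + (K + 1) * cseq K i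

lemma cseq_mono (K : ℕ) {i j : ℕ} (h : i ≤ j) : cseq K i ≤ cseq K j := by
  induction j with
  | zero =>
    have : i = 0 := by omega
    rw [this]
  | succ j ih =>
    rcases Nat.lt_or_ge i (j + 1) with h1 | h1
    · have h2 := ih (by omega)
      have h3 : cseq K (j + 1) = K + (K + 1) * cseq K j := rfl
      rw [h3]
      nlinarith
    · have : i = j + 1 := by omega
      rw [this]

/-- bound for the size of `M` needed below -/
def kap (K : ℕ) : ℕ := K * cseq K K + (K * cseq K K + 1) * K

lemma kap_mono_aux (k c K C : ℕ) (hk : k ≤ K) (hc : c ≤ C) :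
    k * c + (k * c + 1) * k ≤ K * C + (K * C + 1) * K := by
  gcongr

lemma exists_delta (M : Finset ℤ) (K : ℕ) (hM : kap K * (kap K + 1) < M.card)
    (F : Finset ℤ) (hne : F.Nonempty) (hF : ∀ q ∈ F, 0 < q ∧ nu M q ≤ K) :
    ∃ δ : ℤ, 0 < δ ∧ nu M δ ≤ cseq K K ∧ ∀ q ∈ F, δ ∣ q := by
  classical
  obtain ⟨p, hp, hpmax⟩ := exists_max_image F (fun d : ℤ => d) hne
  have hlem : ∀ δ : ℤ, 0 < δ → nu M δ ≤ cseq K K → ∀ q ∈ F, q ≤ K * δ := by
    intro δ hδ hnu q hq
    exact le_mul_of_nu M (cseq K K) K δ q hδ (hF q hq).1 hnu (hF q hq).2 hM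
  have key : ∀ i : ℕ, i ≤ K → (∃ δ : ℤ, 0 < δ ∧ nu M δ ≤ cseq K K ∧ ∀ q ∈ F, δ ∣ q) ∨
      (∃ δ : ℤ, 0 < δ ∧ nu M δ ≤ cseq K i ∧ 2 ^ i * δ ≤ p) := by
    intro i
    induction i with
    | zero =>
      intro _
      right
      exact ⟨p, (hF p hp).1, (hF p hp).2, by simp⟩
    | succ i ih =>
      intro hi
      rcases ih (by omega) with h | ⟨δ, hδ, hnu, h2⟩
      · left; exact h
      · by_cases hall : ∀ q ∈ F, δ ∣ q
        · left
          exact ⟨δ, hδ, hnu.trans (cseq_mono K (by omega)), hall⟩
        · right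
          push Not at hall
          obtain ⟨q, hq, hnd⟩ := hall
          have hqK := hlem δ hδ (hnu.trans (cseq_mono K (by omega))) q hq
          have hq0 := (hF q hq).1
          -- q = a δ + r
          set a := q / δ with ha
          set r := q % δ with hr
          have hqr : δ * a + r = q := Int.mul_ediv_add_emod q δ
          have hr0 : 0 ≤ r := Int.emod_nonneg q (ne_of_gt hδ)
          have hr1 : r < δ := Int.emod_lt_of_pos q hδ
          have hrne : r ≠ 0 := by
            intro h0
            exact hnd (Int.dvd_of_emod_eq_zero h0)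
          have hrpos : 0 < r := by omega
          have ha0 : 0 ≤ a := Int.ediv_nonneg hq0.le hδ.le
          have haK : a ≤ K := by
            by_contra hcon
            push Not at hcon
            nlinarith
          obtain ⟨a', ha'⟩ := Int.eq_ofNat_of_zero_le ha0
          have ha'K : a' ≤ K := by
            have : (a' : ℤ) ≤ K := by rw [← ha']; exact haK
            exact_mod_cast this
          have hnr : nu M r ≤ K + K * cseq K i := by
            have h1 : r = q - (a' : ℤ) * δ := by rw [← ha']; linarith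
            rw [h1]
            calc nu M (q - (a' : ℤ) * δ) ≤ nu M q + nu M ((a' : ℤ) * δ) := nu_sub _ _ _
              _ ≤ K + a' * nu M δ := add_le_add (hF q hq).2 (nu_nsmul _ _ _)
              _ ≤ K + K * cseq K i := by gcongr
          have hnr2 : nu M (δ - r) ≤ K + (K + 1) * cseq K i := by
            calc nu M (δ - r) ≤ nu M δ + nu M r := nu_sub _ _ _
              _ ≤ cseq K i + (K + K * cseq K i) := add_le_add hnu hnr
              _ = K + (K + 1) * cseq K i := by ring
          have hnr3 : nu M r ≤ K + (K + 1) * cseq K i := by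
            calc nu M r ≤ K + K * cseq K i := hnr
              _ ≤ K + (K + 1) * cseq K i := by gcongr; omega
          have hstep : cseq K (i + 1) = K + (K + 1) * cseq K i := rfl
          rw [hstep]
          rcases le_total r (δ - r) with hle | hle
          · refine ⟨r, hrpos, hnr3, ?_⟩
            have : 2 * r ≤ δ := by omega
            calc (2 : ℤ) ^ (i + 1) * r = 2 ^ i * (2 * r) := by ring
              _ ≤ 2 ^ i * δ := by gcongr
              _ ≤ p := h2
          · refine ⟨δ - r, by omega, hnr2, ?_⟩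
            have : 2 * (δ - r) ≤ δ := by omega
            calc (2 : ℤ) ^ (i + 1) * (δ - r) = 2 ^ i * (2 * (δ - r)) := by ring
              _ ≤ 2 ^ i * δ := by gcongr
              _ ≤ p := h2
  rcases key K le_rfl with h | ⟨δ, hδ, hnu, h2⟩
  · exact h
  · exfalso
    have h1 := hlem δ hδ hnu p hp
    have h3 : (K : ℤ) < 2 ^ K := by exact_mod_cast Nat.lt_two_pow_self
    nlinarith

end MPa7f73e
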