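import Mathlib
import Pool.Agent.MPa7f73e.Norm

/-!
# Sum labellings containing a copy of the graph `G(m,h)`

Core vertices are indexed by `i ∈ [1, m-1] \ {h, h+1}`, gadget vertices by `Fin 5`.
-/

namespace MPa7f73e

open Finset

/-- indices of core vertices -/
def core (h m i : ℤ) : Prop := 1 ≤ i ∧ i < m ∧ i ≠ h ∧ i ≠ h + 1

instance (h m i : ℤ) : Decidable (core h m i) := by unfold core; infer_instance

/-- shifts of gadget vertices -/
def sh (h : ℤ) : Fin 5 → ℤ := ![0, h - 33, h - 27, h - 18, h - 6]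

@[simp] lemma sh0 (h : ℤ) : sh h 0 = 0 := rfl
@[simp] lemma sh1 (h : ℤ) : sh h 1 = h - 33 := rfl
@[simp] lemma sh2 (h : ℤ) : sh h 2 = h - 27 := rfl
@[simp] lemma sh3 (h : ℤ) : sh h 3 = h - 18 := rfl
@[simp] lemma sh4 (h : ℤ) : sh h 4 = h - 6 := rfl

/-- a label belonging to the given copy -/
def Own (h m : ℤ) (x : ℤ → ℤ) (c : Fin 5 → ℤ) (u : ℤ) : Prop :=
  (∃ i, core h m i ∧ u = x i) ∨ ∃ r, u = c r

structure Emb (h m : ℤ) (L : Finset ℤ) (x : ℤ → ℤ) (c : Fin 5 → ℤ) : Prop where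
  pos : ∀ y ∈ L, 0 < y
  xmem : ∀ i, core h m i → x i ∈ L
  cmem : ∀ r, c r ∈ L
  xinj : ∀ i j, core h m i → core h m j → x i = x j → i = j
  cinj : ∀ r q, c r = c q → r = q
  xc : ∀ i r, core h m i → x i ≠ c r
  xx : ∀ i j, core h m i → core h m j → i ≠ j →
    (x i + x j ∈ L ↔ (i + j ≤ m ∧ i + j ≠ h ∧ i + j ≠ h + 1))
  xcadj : ∀ i r, core h m i → (x i + c r ∈ L ↔ ∃ q, r < q ∧ i + sh h r = sh h q)
  ccadj : ∀ r q, r ≠ q → (c r + c q ∈ L ↔ ¬ (r = 0 ∧ q = 1) ∧ ¬ (r = 1 ∧ q = 0))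
  cross : ∀ u w, Own h m x c u → w ∈ L → ¬ Own h m x c w → u + w ∉ L

structure Ctx (g h m : ℤ) (L M : Finset ℤ) (x : ℤ → ℤ) (c : Fin 5 → ℤ) : Prop extends
    Emb h m L x c where
  hg : 0 ≤ g
  heven : ∃ H, h = 2 * H
  hh : 24 * g + 80 ≤ h
  hm : 20 * (h + g + 10) ≤ m
  hML : M ⊆ L
  hxM : ∀ i, core h m i → x i ∈ M
  hnu : ∀ i, core h m i → (nu M (x i) : ℤ) ≤ i + g
  hcard : kap (h + 4 * g + 20).toNat * (kap (h + 4 * g + 20).toNat + 1) < M.card

variable {g h m : ℤ} {L M : Finset ℤ} {x : ℤ → ℤ} {c : Fin 5 → ℤ}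

/-- Data produced by the Euclid argument -/
structure Del (g h m : ℤ) (L M : Finset ℤ) (x : ℤ → ℤ) (δ : ℤ) (n : ℤ → ℤ) : Prop where
  pos : 0 < δ
  eq : ∀ i, core h m i → i ≤ h + 3 * g + 20 → x i = n i * δ
  one_le : ∀ i, core h m i → i ≤ h + 3 * g + 20 → 1 ≤ n i
  le : ∀ i, core h m i → i ≤ h + 3 * g + 20 → n i ≤ i + g

lemma exists_del (C : Ctx g h m L M x c) : ∃ δ n, Del g h m L M x δ n := by
  classical
  have hg := C.hg
  have hh := C.hh
  have hm := C.hm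
  set K := (h + 4 * g + 20).toNat with hK
  have hKz : (K : ℤ) = h + 4 * g + 20 := Int.toNat_of_nonneg (by omega)
  obtain ⟨F, hF⟩ : ∃ Z : Finset ℤ, Z = ((Icc (1 : ℤ) (h + 3 * g + 20)).filter (fun i => core h m i)).image x := ⟨_, rfl⟩
  have hFprop : ∀ q ∈ F, 0 < q ∧ nu M q ≤ K := by
    intro q hq
    rw [hF, mem_image] at hq
    obtain ⟨i, hi, rfl⟩ := hq
    rw [mem_filter, mem_Icc] at hi
    refine ⟨C.pos _ (C.xmem i hi.2), ?_⟩
    have := C.hnu i hi.2
    omega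
  have hne : F.Nonempty := by
    refine ⟨x 1, ?_⟩
    rw [hF, mem_image]
    refine ⟨1, ?_, rfl⟩
    rw [mem_filter, mem_Icc]
    unfold core
    omega
  obtain ⟨δ, hδ, hnuδ, hdiv⟩ := exists_delta M K C.hcard F hne hFprop
  have hdiv' : ∀ i, core h m i → i ≤ h + 3 * g + 20 → δ ∣ x i := by
    intro i hi hi2
    apply hdiv
    rw [hF, mem_image]
    refine ⟨i, ?_, rfl⟩
    rw [mem_filter, mem_Icc]
    exact ⟨⟨hi.1, hi2⟩, hi⟩
  refine ⟨δ, fun i => x i / δ, hδ, ?_, ?_, ?_⟩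
  · intro i hi hi2
    exact (Int.ediv_mul_cancel (hdiv' i hi hi2)).symm
  · intro i hi hi2
    have h1 := Int.ediv_mul_cancel (hdiv' i hi hi2)
    have h2 := C.pos _ (C.xmem i hi)
    have h3 : 0 < x i / δ := by
      by_contra hcon
      push Not at hcon
      nlinarith
    exact h3
  · intro i hi hi2
    have h1 := Int.ediv_mul_cancel (hdiv' i hi hi2)
    set k := (i + g).toNat with hk
    have hkz : (k : ℤ) = i + g := Int.toNat_of_nonneg (by have := hi.1; omega)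
    have hkK : k ≤ K := by omega
    have hle := le_mul_of_nu M (cseq K K) k δ (x i) hδ (C.pos _ (C.xmem i hi)) hnuδ
      (by have := C.hnu i hi; omega)
      (by
        have h5 := kap_mono_aux k (cseq K K) K (cseq K K) hkK le_rfl
        refine lt_of_le_of_lt ?_ C.hcard
        exact Nat.mul_le_mul h5 (Nat.add_le_add_right h5 1))
    rw [hkz] at hle
    show x i / δ ≤ i + g
    by_contra hcon
    push Not at hcon
    nlinarith

lemma lowerNu (C : Ctx g h m L M x c) (j : ℤ) (hj : core h m j) :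
    j ≤ (nu M (x j) : ℤ) + 4 := by
  classical
  have hj' := hj
  unfold core at hj'
  obtain ⟨W, hW⟩ : ∃ Z : Finset ℤ, Z = ((Icc (m - j + 1) (m - 1)) \ {h, h + 1, j}) := ⟨_, rfl⟩
  have hWcard : j - 4 ≤ (W.card : ℤ) := by
    have h1 := le_card_sdiff ({h, h + 1, j} : Finset ℤ) (Icc (m - j + 1) (m - 1))
    have h2 : ({h, h + 1, j} : Finset ℤ).card ≤ 3 := card_le_three
    rw [Int.card_Icc, ← hW] at h1
    omega
  have hWcore : ∀ l ∈ W, core h m l ∧ m < l + j ∧ l ≠ j := by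
    intro l hl
    rw [hW, mem_sdiff, mem_Icc] at hl
    simp only [mem_insert, mem_singleton, not_or] at hl
    unfold core
    omega
  have hinj : Set.InjOn x (W : Set ℤ) := by
    intro a ha b hb hab
    exact C.xinj a b (hWcore a ha).1 (hWcore b hb).1 hab
  have hsub : W.image x ⊆ M.filter (fun w => w + x j ∉ M) := by
    intro y hy
    rw [mem_image] at hy
    obtain ⟨l, hl, rfl⟩ := hy
    obtain ⟨h1, h2, h3⟩ := hWcore l hl
    rw [mem_filter]
    refine ⟨C.hxM l h1, ?_⟩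
    intro hmem
    have := (C.xx l j h1 hj h3).1 (C.hML hmem)
    omega
  have h5 := card_le_card hsub
  rw [card_image_of_injOn hinj] at h5
  unfold nu
  omega

variable {δ : ℤ} {n : ℤ → ℤ}

lemma Del.inj (C : Ctx g h m L M x c) (D : Del g h m L M x δ n) (i j : ℤ)
    (hi : core h m i) (hi2 : i ≤ h + 3 * g + 20) (hj : core h m j)
    (hj2 : j ≤ h + 3 * g + 20) (hij : n i = n j) : i = j := by
  apply C.xinj i j hi hj
  rw [D.eq i hi hi2, D.eq j hj hj2, hij]

lemma nu_mul_delta (C : Ctx g h m L M x c) (D : Del g h m L M x δ n) (a : ℤ)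
    (ha : 1 ≤ a) (ha2 : g + a + 5 ≤ h + 3 * g + 20) :
    (nu M (a * δ) : ℤ) ≤ 4 * g + 2 * a + 10 := by
  classical
  have hg := C.hg
  have hh := C.hh
  have hm := C.hm
  set J := g + a + 5 with hJ
  obtain ⟨Ix, hIx⟩ : ∃ Z : Finset ℤ, Z = (Icc (1 : ℤ) J) \ {h, h + 1} := ⟨_, rfl⟩
  have hIxcard : J - 2 ≤ (Ix.card : ℤ) := by
    have h1 := le_card_sdiff ({h, h + 1} : Finset ℤ) (Icc 1 J)
    have h2 : ({h, h + 1} : Finset ℤ).card ≤ 2 := card_le_two
    rw [Int.card_Icc, ← hIx] at h1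
    omega
  have hIxcore : ∀ l ∈ Ix, core h m l ∧ l ≤ J := by
    intro l hl
    rw [hIx, mem_sdiff, mem_Icc] at hl
    simp only [mem_insert, mem_singleton, not_or] at hl
    unfold core
    omega
  obtain ⟨T, hT⟩ : ∃ Z : Finset ℤ, Z = Ix.image n := ⟨_, rfl⟩
  have hinj : Set.InjOn n (Ix : Set ℤ) := by
    intro i hi j hj hij
    obtain ⟨h1, h2⟩ := hIxcore i hi
    obtain ⟨h3, h4⟩ := hIxcore j hj
    exact D.inj C i j h1 (by omega) h3 (by omega) hij
  have hTcard : J - 2 ≤ (T.card : ℤ) := by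
    rw [hT, card_image_of_injOn hinj]
    exact hIxcard
  have hTsub : ∀ t ∈ T, 1 ≤ t ∧ t ≤ J + g := by
    intro t ht
    rw [hT, mem_image] at ht
    obtain ⟨i, hi, rfl⟩ := ht
    obtain ⟨h1, h2⟩ := hIxcore i hi
    have h3 := D.one_le i h1 (by omega)
    have h4 := D.le i h1 (by omega)
    omega
  have hex : ∃ t ∈ T, t + a ∈ T := by
    by_contra hno
    push Not at hno
    have hdisj : Disjoint T (T.image (fun t => t + a)) := by
      rw [disjoint_left]
      intro u hu hu2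
      rw [mem_image] at hu2
      obtain ⟨t, ht, rfl⟩ := hu2
      exact hno t ht hu
    have hcu := card_union_of_disjoint hdisj
    have hsub : T ∪ T.image (fun t => t + a) ⊆ Icc 1 (J + g + a) := by
      intro u hu
      rw [mem_union] at hu
      rw [mem_Icc]
      rcases hu with hu | hu
      · have := hTsub u hu
        omega
      · rw [mem_image] at hu
        obtain ⟨t, ht, rfl⟩ := hu
        have := hTsub t ht
        omega
    have h1 := card_le_card hsub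
    rw [hcu, card_image_of_injective _ (add_left_injective a), Int.card_Icc] at h1
    omega
  obtain ⟨t, ht, hta⟩ := hex
  rw [hT, mem_image] at ht hta
  obtain ⟨i, hi, hit⟩ := ht
  obtain ⟨j, hj, hjt⟩ := hta
  obtain ⟨h1, h2⟩ := hIxcore i hi
  obtain ⟨h3, h4⟩ := hIxcore j hj
  have he : a * δ = x j - x i := by
    rw [D.eq i h1 (by omega), D.eq j h3 (by omega), hit, hjt]
    ring
  rw [he]
  have h5 := nu_sub M (x j) (x i)
  have h6 := C.hnu i h1
  have h7 := C.hnu j h3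
  omega

/-- three distinct missing multiples do not exist (sorted version) -/
lemma no_three (C : Ctx g h m L M x c) (D : Del g h m L M x δ n) (s₁ s₂ s₃ : ℤ)
    (h1 : 4 * g + 13 ≤ s₁) (h12 : s₁ < s₂) (h23 : s₂ < s₃) (h3 : s₃ ≤ h + 3 * g + 21)
    (m1 : s₁ * δ ∉ L) (m2 : s₂ * δ ∉ L) (m3 : s₃ * δ ∉ L) : False := by
  classical
  have hg := C.hg
  have hh := C.hh
  have hm := C.hm
  set I := h + 3 * g + 20 with hI
  obtain ⟨Ix, hIx⟩ : ∃ Z : Finset ℤ, Z = (Icc (1 : ℤ) I) \ {h, h + 1} := ⟨_, rfl⟩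
  have hIxcore : ∀ l ∈ Ix, core h m l ∧ l ≤ I := by
    intro l hl
    rw [hIx, mem_sdiff, mem_Icc] at hl
    simp only [mem_insert, mem_singleton, not_or] at hl
    unfold core
    omega
  obtain ⟨T, hT⟩ : ∃ Z : Finset ℤ, Z = Ix.image n := ⟨_, rfl⟩
  have hinj : Set.InjOn n (Ix : Set ℤ) := by
    intro i hi j hj hij
    obtain ⟨h1, h2⟩ := hIxcore i hi
    obtain ⟨h3, h4⟩ := hIxcore j hj
    exact D.inj C i j h1 (by omega) h3 (by omega) hij
  obtain ⟨B, hB⟩ : ∃ Z : Finset ℤ, Z = (Icc (1 : ℤ) I) \ T := ⟨_, rfl⟩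
  have hBcard : (B.card : ℤ) ≤ g + 2 := by
    -- the indices up to I - g
    obtain ⟨Iy, hIy⟩ : ∃ Z : Finset ℤ, Z = (Icc (1 : ℤ) (I - g)) \ {h, h + 1} := ⟨_, rfl⟩
    have hIysub : Iy ⊆ Ix := by
      intro l hl
      rw [hIy, mem_sdiff, mem_Icc] at hl
      rw [hIx, mem_sdiff, mem_Icc]
      refine ⟨by omega, hl.2⟩
    have hIycard : I - g - 2 ≤ (Iy.card : ℤ) := by
      have h1 := le_card_sdiff ({h, h + 1} : Finset ℤ) (Icc 1 (I - g))
      have h2 : ({h, h + 1} : Finset ℤ).card ≤ 2 := card_le_two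
      rw [Int.card_Icc, ← hIy] at h1
      omega
    have hsub : Iy.image n ⊆ (Icc (1 : ℤ) I) \ B := by
      intro u hu
      rw [mem_image] at hu
      obtain ⟨i, hi, rfl⟩ := hu
      obtain ⟨h1, h2⟩ := hIxcore i (hIysub hi)
      have h3 := D.one_le i h1 (by omega)
      have h4 := D.le i h1 (by omega)
      rw [hIy, mem_sdiff, mem_Icc] at hi
      rw [mem_sdiff, mem_Icc]
      refine ⟨by omega, ?_⟩
      rw [hB, mem_sdiff, not_and_not_right]
      intro _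
      rw [hT, mem_image]
      exact ⟨i, hIysub (by rw [hIy, mem_sdiff, mem_Icc]; exact hi), rfl⟩
    have h5 := card_le_card hsub
    have hBsub : B ⊆ Icc (1 : ℤ) I := by rw [hB]; exact sdiff_subset
    rw [card_image_of_injOn (hinj.mono (by exact_mod_cast hIysub)),
      card_sdiff_of_subset hBsub, Int.card_Icc] at h5
    have h6 := card_le_card hBsub
    rw [Int.card_Icc] at h6
    omega
  -- the bad set
  obtain ⟨bad, hbad⟩ : ∃ Z : Finset ℤ, Z = B ∪ B.image (fun b => s₁ - b) ∪ B.image (fun b => s₂ - b) ∪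
    B.image (fun b => s₃ - b) ∪ {s₁ / 2, s₂ / 2, s₃ / 2} := ⟨_, rfl⟩
  have hbadcard : (bad.card : ℤ) ≤ 4 * g + 11 := by
    have c1 : bad.card ≤ (B ∪ B.image (fun b => s₁ - b) ∪ B.image (fun b => s₂ - b) ∪
      B.image (fun b => s₃ - b)).card + ({s₁ / 2, s₂ / 2, s₃ / 2} : Finset ℤ).card := by
      rw [hbad]
      exact card_union_le _ _
    have c2 : (B ∪ B.image (fun b => s₁ - b) ∪ B.image (fun b => s₂ - b) ∪
      B.image (fun b => s₃ - b)).card ≤ (B ∪ B.image (fun b => s₁ - b) ∪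
        B.image (fun b => s₂ - b)).card + (B.image (fun b => s₃ - b)).card := card_union_le _ _
    have c3 : (B ∪ B.image (fun b => s₁ - b) ∪
        B.image (fun b => s₂ - b)).card ≤ (B ∪ B.image (fun b => s₁ - b)).card +
        (B.image (fun b => s₂ - b)).card := card_union_le _ _
    have c4 : (B ∪ B.image (fun b => s₁ - b)).card ≤ B.card +
      (B.image (fun b => s₁ - b)).card := card_union_le _ _
    have c5 : ({s₁ / 2, s₂ / 2, s₃ / 2} : Finset ℤ).card ≤ 3 := card_le_three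
    have d1 : (B.image (fun b => s₁ - b)).card ≤ B.card := card_image_le
    have d2 : (B.image (fun b => s₂ - b)).card ≤ B.card := card_image_le
    have d3 : (B.image (fun b => s₃ - b)).card ≤ B.card := card_image_le
    omega
  have hex : ∃ a ∈ Icc (1 : ℤ) (s₁ - 1), a ∉ bad := by
    by_contra hno
    push Not at hno
    have h5 := card_le_card (show Icc (1 : ℤ) (s₁ - 1) ⊆ bad from hno)
    rw [Int.card_Icc] at h5
    omega
  obtain ⟨a, ha, habad⟩ := hex
  rw [mem_Icc] at ha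
  rw [hbad] at habad
  simp only [mem_union, mem_insert, mem_singleton, mem_image, not_or, not_exists, not_and]
    at habad
  obtain ⟨⟨⟨⟨b0, b1⟩, b2⟩, b3⟩, b4, b5, b6⟩ := habad
  -- membership in T
  have memT : ∀ u, 1 ≤ u → u ≤ I → u ∉ B → ∃ i, core h m i ∧ i ≤ I ∧ n i = u := by
    intro u hu1 hu2 huB
    rw [hB, mem_sdiff, not_and_not_right, mem_Icc] at huB
    have h5 := huB ⟨hu1, hu2⟩
    rw [hT, mem_image] at h5
    obtain ⟨i, hi, rfl⟩ := h5
    exact ⟨i, (hIxcore i hi).1, (hIxcore i hi).2, rfl⟩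
  obtain ⟨i, hi, hiI, hia⟩ := memT a ha.1 (by omega) b0
  have part : ∀ s, s * δ ∉ L → s₁ ≤ s → s ≤ s₃ → (∀ b ∈ B, ¬ (s - b = a)) → a ≠ s / 2 →
      ∃ j, core h m j ∧ j ≤ I ∧ n j = s - a ∧ (i + j = h ∨ i + j = h + 1) := by
    intro s hs hs1 hs3 hsB hs2
    obtain ⟨j, hj, hjI, hja⟩ := memT (s - a) (by omega) (by omega) (by
      intro hcon
      exact hsB _ hcon (by ring))
    refine ⟨j, hj, hjI, hja, ?_⟩
    have hne : i ≠ j := by
      intro hij
      rw [← hij, hia] at hja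
      omega
    have h5 := C.xx i j hi hj hne
    rw [D.eq i hi hiI, D.eq j hj hjI, hia, hja] at h5
    have h6 : a * δ + (s - a) * δ = s * δ := by ring
    rw [h6] at h5
    by_contra hcon
    push Not at hcon
    exact hs (h5.2 ⟨by omega, hcon.1, hcon.2⟩)
  obtain ⟨j1, -, -, e1, f1⟩ := part s₁ m1 le_rfl (by omega) (by simpa using b1) b4
  obtain ⟨j2, -, -, e2, f2⟩ := part s₂ m2 (by omega) (by omega) (by simpa using b2) b5
  obtain ⟨j3, -, -, e3, f3⟩ := part s₃ m3 (by omega) le_rfl (by simpa using b3) b6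
  have n12 : j1 ≠ j2 := by
    intro hcon; rw [hcon] at e1; omega
  have n13 : j1 ≠ j3 := by
    intro hcon; rw [hcon] at e1; omega
  have n23 : j2 ≠ j3 := by
    intro hcon; rw [hcon] at e2; omega
  omega

lemma no_three' (C : Ctx g h m L M x c) (D : Del g h m L M x δ n) (s₁ s₂ s₃ : ℤ)
    (h1 : 4 * g + 13 ≤ s₁) (h2 : 4 * g + 13 ≤ s₂) (h3 : 4 * g + 13 ≤ s₃)
    (k1 : s₁ ≤ h + 3 * g + 21) (k2 : s₂ ≤ h + 3 * g + 21) (k3 : s₃ ≤ h + 3 * g + 21)
    (m1 : s₁ * δ ∉ L) (m2 : s₂ * δ ∉ L) (m3 : s₃ * δ ∉ L) :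
    s₁ = s₂ ∨ s₁ = s₃ ∨ s₂ = s₃ := by
  by_contra hcon
  push Not at hcon
  obtain ⟨a1, a2, a3⟩ := hcon
  rcases lt_or_gt_of_ne a1 with b1 | b1 <;> rcases lt_or_gt_of_ne a2 with b2 | b2 <;>
    rcases lt_or_gt_of_ne a3 with b3 | b3
  · exact no_three C D s₁ s₂ s₃ h1 b1 b3 k3 m1 m2 m3
  · exact no_three C D s₁ s₃ s₂ h1 b2 b3 k2 m1 m3 m2
  · omega
  · exact no_three C D s₃ s₁ s₂ h3 b2 b1 k2 m3 m1 m2
  · exact no_three C D s₂ s₁ s₃ h2 b1 b2 k3 m2 m1 m3
  · omega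
  · exact no_three C D s₂ s₃ s₁ h2 b3 b2 k1 m2 m3 m1
  · exact no_three C D s₃ s₂ s₁ h3 b3 b1 k1 m3 m2 m1

lemma large_n (C : Ctx g h m L M x c) (D : Del g h m L M x δ n) (k : ℤ)
    (hk : core h m k) (hk1 : h ≤ 2 * k) (hk2 : k ≤ h + 3 * g + 20) : 4 * g + 13 ≤ n k := by
  have hg := C.hg
  have hh := C.hh
  by_contra hcon
  push Not at hcon
  have h1 := D.one_le k hk hk2
  have h2 := lowerNu C k hk
  have h3 := nu_mul_delta C D (n k) h1 (by omega)
  rw [← D.eq k hk hk2] at h3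
  omega

end MPa7f73e
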