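import Mathlib
import Pool.Agent.MPa7f73e.Defs
import Pool.Agent.MPa7f73e.Emb

/-!
# The graphs `Gr h m`
-/

namespace MPa7f73e

open Finset

/-- vertices of `Gr h m` -/
abbrev VT (h m : ℤ) : Type := {i : ℤ // core h m i} ⊕ Fin 5

/-- adjacency of `Gr h m` -/
def gadj (h m : ℤ) : VT h m → VT h m → Prop
  | Sum.inl i, Sum.inl j => i ≠ j ∧ i.1 + j.1 ≤ m ∧ i.1 + j.1 ≠ h ∧ i.1 + j.1 ≠ h + 1
  | Sum.inl i, Sum.inr r => ∃ q, r < q ∧ i.1 + sh h r = sh h q
  | Sum.inr r, Sum.inl i => ∃ q, r < q ∧ i.1 + sh h r = sh h q
  | Sum.inr r, Sum.inr q => r ≠ q ∧ ¬ (r = 0 ∧ q = 1) ∧ ¬ (r = 1 ∧ q = 0)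

/-- the graph `Gr h m` -/
def Gr (h m : ℤ) : SimpleGraph (VT h m) where
  Adj := gadj h m
  symm := ⟨by
    rintro (i | r) (j | q) huv
    · simp only [gadj] at huv ⊢
      refine ⟨huv.1.symm, ?_, ?_, ?_⟩ <;> rw [add_comm] <;> tauto
    · exact huv
    · exact huv
    · simp only [gadj] at huv ⊢
      refine ⟨huv.1.symm, ?_, ?_⟩ <;> tauto⟩
  loopless := ⟨by
    rintro (i | r) huv
    · exact huv.1 rfl
    · exact huv.1 rfl⟩

instance finiteCore (h m : ℤ) : Finite {i : ℤ // core h m i} := by
  have : Set.Finite {i : ℤ | core h m i} := by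
    apply (Set.finite_Icc (1 : ℤ) m).subset
    intro i hi
    exact ⟨hi.1, hi.2.1.le⟩
  exact this.to_subtype

section basic

variable {h m : ℤ}

lemma gr_adj_ll (i j : {i : ℤ // core h m i}) :
    (Gr h m).Adj (Sum.inl i) (Sum.inl j) ↔
      i ≠ j ∧ i.1 + j.1 ≤ m ∧ i.1 + j.1 ≠ h ∧ i.1 + j.1 ≠ h + 1 := Iff.rfl

lemma gr_adj_lr (i : {i : ℤ // core h m i}) (r : Fin 5) :
    (Gr h m).Adj (Sum.inl i) (Sum.inr r) ↔ ∃ q, r < q ∧ i.1 + sh h r = sh h q := Iff.rfl

lemma gr_adj_rl (i : {i : ℤ // core h m i}) (r : Fin 5) :
    (Gr h m).Adj (Sum.inr r) (Sum.inl i) ↔ ∃ q, r < q ∧ i.1 + sh h r = sh h q := Iff.rfl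

lemma gr_adj_rr (r q : Fin 5) :
    (Gr h m).Adj (Sum.inr r) (Sum.inr q) ↔ r ≠ q ∧ ¬ (r = 0 ∧ q = 1) ∧ ¬ (r = 1 ∧ q = 0) :=
  Iff.rfl

/-- every vertex is reachable from the vertex `1` -/
lemma reach_one (hh : 80 ≤ h) (hm : 20 * (h + 10) ≤ m) (v : VT h m) :
    (Gr h m).Reachable (Sum.inl ⟨1, by unfold core; omega⟩) v := by
  have small : ∀ (i : ℤ) (hi : core h m i), i ≠ h - 1 →
      (Gr h m).Reachable (Sum.inl ⟨1, by unfold core; omega⟩) (Sum.inl ⟨i, hi⟩) := by
    intro i hi hne
    by_cases h1 : i = 1
    · subst h1; exact SimpleGraph.Reachable.refl _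
    · apply SimpleGraph.Adj.reachable
      rw [gr_adj_ll]
      have := hi
      unfold core at this
      refine ⟨?_, ?_, ?_, ?_⟩
      · intro hcon
        rw [Subtype.mk.injEq] at hcon
        omega
      · show 1 + i ≤ m
        omega
      · show 1 + i ≠ h
        omega
      · show 1 + i ≠ h + 1
        omega
  have g0 : (Gr h m).Reachable (Sum.inl ⟨1, by unfold core; omega⟩) (Sum.inr 0) := by
    refine (small (h - 33) (by unfold core; omega) (by omega)).trans ?_
    apply SimpleGraph.Adj.reachable
    rw [gr_adj_lr]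
    exact ⟨1, by decide, by simp⟩
  rcases v with ⟨i, hi⟩ | r
  · by_cases hne : i = h - 1
    · subst hne
      refine (small 3 (by unfold core; omega) (by omega)).trans ?_
      apply SimpleGraph.Adj.reachable
      rw [gr_adj_ll]
      refine ⟨?_, ?_, ?_, ?_⟩
      · intro hcon
        rw [Subtype.mk.injEq] at hcon
        omega
      · show 3 + (h - 1) ≤ m
        omega
      · show 3 + (h - 1) ≠ h
        omega
      · show 3 + (h - 1) ≠ h + 1
        omega
    · exact small i hi hne
  · have via : ∀ (r : Fin 5) (i : ℤ) (hi : core h m i), i ≠ h - 1 →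
        (∃ q, r < q ∧ i + sh h r = sh h q) →
        (Gr h m).Reachable (Sum.inl ⟨1, by unfold core; omega⟩) (Sum.inr r) := by
      intro r i hi hne hq
      refine (small i hi hne).trans ?_
      apply SimpleGraph.Adj.reachable
      rw [gr_adj_lr]
      exact hq
    fin_cases r
    · exact g0
    · exact via 1 6 (by unfold core; omega) (by omega) ⟨2, by decide, by simp; ring⟩
    · exact via 2 9 (by unfold core; omega) (by omega) ⟨3, by decide, by simp; ring⟩
    · exact via 3 12 (by unfold core; omega) (by omega) ⟨4, by decide, by simp; ring⟩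
    · refine g0.trans ?_
      apply SimpleGraph.Adj.reachable
      show (Gr h m).Adj (Sum.inr 0) (Sum.inr 4)
      rw [gr_adj_rr]
      decide

lemma gr_connected (hh : 80 ≤ h) (hm : 20 * (h + 10) ≤ m) : (Gr h m).Connected := by
  rw [SimpleGraph.connected_iff_exists_forall_reachable]
  exact ⟨_, reach_one hh hm⟩

lemma gr_noIsolated (hh : 80 ≤ h) (hm : 20 * (h + 10) ≤ m) (v : VT h m) :
    ∃ u, (Gr h m).Adj v u := by
  have hne : Nontrivial (VT h m) := ⟨Sum.inr 0, Sum.inr 1, by simp⟩
  exact (gr_connected hh hm).preconnected.exists_adj_of_nontrivial v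

/-- the standard labels -/
def lab (h m : ℤ) : VT h m → ℤ
  | Sum.inl i => 2 * i.1
  | Sum.inr r => 33 + 2 * sh h r

lemma gr_isSumGraph (hh : 80 ≤ h) (he : ∃ H, h = 2 * H) (hm : 20 * (h + 10) ≤ m) :
    IsSumGraph (Gr h m ⊕g (⊥ : SimpleGraph (Fin 1))) := by
  obtain ⟨H, hH⟩ := he
  have shb : ∀ r, 0 ≤ sh h r ∧ sh h r ≤ h - 6 := by
    intro r
    fin_cases r <;> simp <;> omega
  have shmono : ∀ r q, r < q → sh h r < sh h q := by
    intro r q hrq
    fin_cases r <;> fin_cases q <;>
      first | (exfalso; revert hrq; decide) | (simp; done) | (simp; omega)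
  have shinj : ∀ r q, sh h r = sh h q → r = q := by
    intro r q hrq
    rcases lt_trichotomy r q with h1 | h1 | h1
    · have := shmono r q h1; omega
    · exact h1
    · have := shmono q r h1; omega
  refine ⟨Sum.elim (lab h m) (fun _ => 2 * m), ?_, ?_, ?_⟩
  · rintro ((⟨i, hi⟩ | r) | z) ((⟨j, hj⟩ | q) | z') huv
    · simp only [Sum.elim_inl, lab] at huv
      have : i = j := by omega
      subst this
      rfl
    · simp only [Sum.elim_inl, lab] at huv
      omega
    · simp only [Sum.elim_inl, Sum.elim_inr, lab] at huv
      unfold core at hi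
      omega
    · simp only [Sum.elim_inl, lab] at huv
      omega
    · simp only [Sum.elim_inl, lab] at huv
      rw [shinj r q (by omega)]
    · simp only [Sum.elim_inl, Sum.elim_inr, lab] at huv
      omega
    · simp only [Sum.elim_inl, Sum.elim_inr, lab] at huv
      unfold core at hj
      omega
    · simp only [Sum.elim_inl, Sum.elim_inr, lab] at huv
      omega
    · rw [Subsingleton.elim z z']
  · rintro ((⟨i, hi⟩ | r) | z)
    · simp only [Sum.elim_inl, lab]
      have := hi.1
      omega
    · simp only [Sum.elim_inl, lab]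
      have := shb r
      omega
    · simp only [Sum.elim_inr]
      omega
  · have labpos : ∀ v, 0 < lab h m v := by
      rintro (⟨i, hi⟩ | r)
      · simp only [lab]
        have := hi.1
        omega
      · simp only [lab]
        have := shb r
        omega
    have lable : ∀ w : VT h m ⊕ Fin 1, Sum.elim (lab h m) (fun _ => 2 * m) w ≤ 2 * m := by
      rintro ((⟨i, hi⟩ | r) | z)
      · simp only [Sum.elim_inl, lab]
        have := hi.2.1
        omega
      · simp only [Sum.elim_inl, lab]
        have := shb r
        omega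
      · simp only [Sum.elim_inr]
        omega
    rintro ((⟨i, hi⟩ | r) | z) ((⟨j, hj⟩ | q) | z') huv
    · -- core core
      rw [SimpleGraph.sum_adj_inl, gr_adj_ll]
      simp only [Sum.elim_inl, lab]
      constructor
      · rintro ⟨-, h1, h2, h3⟩
        by_cases him : i + j = m
        · exact ⟨Sum.inr 0, by simp only [Sum.elim_inr]; omega⟩
        · exact ⟨Sum.inl (Sum.inl ⟨i + j, by unfold core at hi hj ⊢; omega⟩), by
            simp only [Sum.elim_inl, lab]; ring⟩
      · rintro ⟨((⟨k, hk⟩ | s) | z), hw⟩
        · simp only [Sum.elim_inl, lab] at hw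
          have : i + j = k := by omega
          refine ⟨?_, ?_, ?_, ?_⟩
          · intro hcon
            apply huv
            rw [hcon]
          · rw [this]; exact hk.2.1.le
          · rw [this]; exact hk.2.2.1
          · rw [this]; exact hk.2.2.2
        · simp only [Sum.elim_inl, lab] at hw
          omega
        · simp only [Sum.elim_inr] at hw
          refine ⟨?_, by omega, by omega, by omega⟩
          intro hcon
          apply huv
          rw [hcon]
    · -- core gadget
      rw [SimpleGraph.sum_adj_inl, gr_adj_lr]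
      simp only [Sum.elim_inl, lab]
      constructor
      · rintro ⟨s, hs1, hs2⟩
        exact ⟨Sum.inl (Sum.inr s), by simp only [Sum.elim_inl, lab]; omega⟩
      · rintro ⟨((⟨k, hk⟩ | s) | z), hw⟩
        · simp only [Sum.elim_inl, lab] at hw
          omega
        · simp only [Sum.elim_inl, lab] at hw
          refine ⟨s, ?_, by omega⟩
          by_contra hcon
          push Not at hcon
          rcases lt_or_eq_of_le hcon with h1 | h1
          · have := shmono s q h1
            have := hi.1
            omega
          · have := hi.1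
            rw [h1] at hw
            omega
        · simp only [Sum.elim_inr] at hw
          omega
    · -- core isolated
      constructor
      · intro hadj; simp at hadj
      · rintro ⟨w, hw⟩
        have h1 := lable w
        have h2 := labpos (Sum.inl ⟨i, hi⟩)
        rw [← hw] at h1
        simp only [Sum.elim_inl, Sum.elim_inr] at h1
        omega
    · -- gadget core
      rw [SimpleGraph.sum_adj_inl, gr_adj_rl]
      simp only [Sum.elim_inl, lab]
      constructor
      · rintro ⟨s, hs1, hs2⟩
        exact ⟨Sum.inl (Sum.inr s), by simp only [Sum.elim_inl, lab]; omega⟩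
      · rintro ⟨((⟨k, hk⟩ | s) | z), hw⟩
        · simp only [Sum.elim_inl, lab] at hw
          omega
        · simp only [Sum.elim_inl, lab] at hw
          refine ⟨s, ?_, by omega⟩
          by_contra hcon
          push Not at hcon
          rcases lt_or_eq_of_le hcon with h1 | h1
          · have := shmono s r h1
            have := hj.1
            omega
          · have := hj.1
            rw [h1] at hw
            omega
        · simp only [Sum.elim_inr] at hw
          omega
    · -- gadget gadget
      have hrq : r ≠ q := by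
        intro hcon
        apply huv
        rw [hcon]
      rw [SimpleGraph.sum_adj_inl, gr_adj_rr]
      simp only [Sum.elim_inl, lab]
      have key : (r ≠ q ∧ ¬ (r = 0 ∧ q = 1) ∧ ¬ (r = 1 ∧ q = 0)) ↔
          core h m (33 + sh h r + sh h q) := by
        unfold core
        fin_cases r <;> fin_cases q <;> simp at hrq ⊢ <;> omega
      rw [key]
      constructor
      · intro hc
        exact ⟨Sum.inl (Sum.inl ⟨_, hc⟩), by simp only [Sum.elim_inl, lab]; ring⟩
      · rintro ⟨((⟨k, hk⟩ | s) | z), hw⟩
        · simp only [Sum.elim_inl, lab] at hw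
          have : 33 + sh h r + sh h q = k := by omega
          rw [this]; exact hk
        · simp only [Sum.elim_inl, lab] at hw
          omega
        · simp only [Sum.elim_inr] at hw
          have := shb r
          have := shb q
          omega
    · constructor
      · intro hadj; simp at hadj
      · rintro ⟨w, hw⟩
        have h1 := lable w
        have h2 := labpos (Sum.inr r)
        rw [← hw] at h1
        simp only [Sum.elim_inl, Sum.elim_inr] at h1
        omega
    · constructor
      · intro hadj; simp at hadj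
      · rintro ⟨w, hw⟩
        have h1 := lable w
        have h2 := labpos (Sum.inl ⟨j, hj⟩)
        rw [← hw] at h1
        simp only [Sum.elim_inl, Sum.elim_inr] at h1
        omega
    · constructor
      · intro hadj; simp at hadj
      · rintro ⟨w, hw⟩
        have h1 := lable w
        have h2 := labpos (Sum.inr q)
        rw [← hw] at h1
        simp only [Sum.elim_inl, Sum.elim_inr] at h1
        omega
    · exact absurd (by rw [Subsingleton.elim z z']) huv

end basic

end MPa7f73e
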