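import Mathlib
import Pool.Agent.MPa7f73e.Graph

/-!
# From a sum labelling of a graph with a component `Gr h m` to `Emb`
-/

namespace MPa7f73e

open Finset

variable {h m : ℤ}

/-- the label function of core vertices, by index -/
noncomputable def xof {U : Type} (l : U → ℤ) (f : VT h m → U) (i : ℤ) : ℤ :=
  if hi : core h m i then l (f (Sum.inl ⟨i, hi⟩)) else 0

/-- the label function of gadget vertices -/
def cof {U : Type} (l : U → ℤ) (f : VT h m → U) (r : Fin 5) : ℤ := l (f (Sum.inr r))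

lemma xof_core {U : Type} (l : U → ℤ) (f : VT h m → U) (i : ℤ) (hi : core h m i) :
    xof l f i = l (f (Sum.inl ⟨i, hi⟩)) := by
  unfold xof
  rw [dif_pos hi]

lemma own_iff {U : Type} (l : U → ℤ) (f : VT h m → U) (y : ℤ) :
    Own h m (xof l f) (cof l f) y ↔ ∃ v, y = l (f v) := by
  constructor
  · rintro (⟨i, hi, hy⟩ | ⟨r, hr⟩)
    · exact ⟨Sum.inl ⟨i, hi⟩, by rw [hy, xof_core l f i hi]⟩
    · exact ⟨Sum.inr r, hr⟩
  · rintro ⟨(⟨i, hi⟩ | r), hv⟩
    · exact Or.inl ⟨i, hi, by rw [hv, xof_core l f i hi]⟩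
    · exact Or.inr ⟨r, hv⟩

lemma emb_of {U : Type} (H : SimpleGraph U) (l : U → ℤ)
    (linj : Function.Injective l) (lpos : ∀ v, 0 < l v)
    (ladj : ∀ u v, u ≠ v → (H.Adj u v ↔ ∃ w, l u + l v = l w))
    (L : Finset ℤ) (hL : ∀ y, y ∈ L ↔ ∃ w, l w = y)
    (f : VT h m → U) (finj : Function.Injective f)
    (fadj : ∀ u v, H.Adj (f u) (f v) ↔ (Gr h m).Adj u v)
    (fcomp : ∀ u w, H.Adj (f u) w → ∃ v, w = f v) :
    Emb h m L (xof l f) (cof l f) := by
  have key : ∀ u v, u ≠ v → (l (f u) + l (f v) ∈ L ↔ (Gr h m).Adj u v) := by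
    intro u v huv
    rw [← fadj u v, ladj (f u) (f v) (fun hcon => huv (finj hcon)), hL]
    constructor
    · rintro ⟨w, hw⟩; exact ⟨w, hw.symm⟩
    · rintro ⟨w, hw⟩; exact ⟨w, hw.symm⟩
  refine ⟨?_, ?_, ?_, ?_, ?_, ?_, ?_, ?_, ?_, ?_⟩
  · intro y hy
    obtain ⟨w, rfl⟩ := (hL y).1 hy
    exact lpos w
  · intro i hi
    rw [xof_core l f i hi]
    exact (hL _).2 ⟨_, rfl⟩
  · intro r
    exact (hL _).2 ⟨_, rfl⟩
  · intro i j hi hj hij
    rw [xof_core l f i hi, xof_core l f j hj] at hij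
    have h1 := finj (linj hij)
    rw [Sum.inl.injEq, Subtype.mk.injEq] at h1
    exact h1
  · intro r q hrq
    have h1 := finj (linj hrq)
    rw [Sum.inr.injEq] at h1
    exact h1
  · intro i r hi hir
    rw [xof_core l f i hi] at hir
    have h1 := finj (linj hir)
    exact absurd h1 (by simp)
  · intro i j hi hj hij
    rw [xof_core l f i hi, xof_core l f j hj, key _ _ (by
      intro hcon
      rw [Sum.inl.injEq, Subtype.mk.injEq] at hcon
      exact hij hcon), gr_adj_ll]
    constructor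
    · exact fun h => h.2
    · intro h
      refine ⟨?_, h⟩
      intro hcon
      rw [Subtype.mk.injEq] at hcon
      exact hij hcon
  · intro i r hi
    rw [xof_core l f i hi]
    unfold cof
    rw [key _ _ (by simp), gr_adj_lr]
  · intro r q hrq
    unfold cof
    rw [key _ _ (by simpa using hrq), gr_adj_rr]
    constructor
    · exact fun h => h.2
    · exact fun h => ⟨hrq, h⟩
  · intro u w hu hw hnw hmem
    obtain ⟨v, rfl⟩ := (own_iff l f u).1 hu
    obtain ⟨w', rfl⟩ := (hL w).1 hw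
    obtain ⟨w'', hw''⟩ := (hL _).1 hmem
    apply hnw
    rw [own_iff]
    have hne : f v ≠ w' := by
      intro hcon
      apply hnw
      rw [own_iff]
      exact ⟨v, by rw [hcon]⟩
    obtain ⟨v', hv'⟩ := fcomp v w' ((ladj _ _ hne).2 ⟨w'', hw''.symm⟩)
    exact ⟨v', by rw [hv']⟩

/-- The basic bound for the norm of a core label. -/
lemma nu_bound {L : Finset ℤ} {x : ℤ → ℤ} {c : Fin 5 → ℤ} (E : Emb h m L x c) (M : Finset ℤ)
    (hML : M ⊆ L) (i : ℤ) (hi : core h m i) (R : Finset ℤ)
    (hR : ∀ w ∈ M, w + x i ∉ M → (¬ Own h m x c w ∨ w + x i ∈ L) → w ∈ R) :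
    (nu M (x i) : ℤ) ≤ i + 7 + R.card := by
  classical
  have hi1 := hi.1
  have hsub : M.filter (fun w => w + x i ∉ M) ⊆
      (({h - i, h + 1 - i, i} ∪ Icc (m - i + 1) (m - 1) : Finset ℤ).image x ∪
        (univ : Finset (Fin 5)).image c) ∪ R := by
    intro w hw
    rw [mem_filter] at hw
    rw [mem_union, mem_union]
    by_cases hr : w ∈ R
    · right; exact hr
    · left
      have h1 : ¬ (¬ Own h m x c w ∨ w + x i ∈ L) := fun h => hr (hR w hw.1 hw.2 h)
      push Not at h1
      obtain ⟨h2, h3⟩ := h1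
      rcases h2 with ⟨j, hj, rfl⟩ | ⟨r, rfl⟩
      · left
        apply mem_image_of_mem
        rw [mem_union, mem_Icc]
        simp only [mem_insert, mem_singleton]
        by_cases hij : j = i
        · left; right; right; exact hij
        · have h4 : ¬ (j + i ≤ m ∧ j + i ≠ h ∧ j + i ≠ h + 1) := by
            intro hcon
            exact h3 ((E.xx j i hj hi hij).2 hcon)
          have h5 := hj.2.1
          omega
      · right
        exact mem_image_of_mem _ (mem_univ r)
  have h1 := card_le_card hsub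
  have h2 := card_union_le (({h - i, h + 1 - i, i} ∪ Icc (m - i + 1) (m - 1) : Finset ℤ).image x ∪
        (univ : Finset (Fin 5)).image c) R
  have h3 := card_union_le (({h - i, h + 1 - i, i} ∪ Icc (m - i + 1) (m - 1) :
    Finset ℤ).image x) ((univ : Finset (Fin 5)).image c)
  have h4 : (({h - i, h + 1 - i, i} ∪ Icc (m - i + 1) (m - 1) : Finset ℤ).image x).card ≤
    ({h - i, h + 1 - i, i} ∪ Icc (m - i + 1) (m - 1) : Finset ℤ).card := card_image_le
  have h5 : ((univ : Finset (Fin 5)).image c).card ≤ 5 := by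
    refine card_image_le.trans ?_
    simp
  have h6 := card_union_le ({h - i, h + 1 - i, i} : Finset ℤ) (Icc (m - i + 1) (m - 1))
  have h7 : ({h - i, h + 1 - i, i} : Finset ℤ).card ≤ 3 := card_le_three
  rw [Int.card_Icc] at h6
  unfold nu
  omega

end MPa7f73e
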