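import Mathlib
import Pool.Agent.MPa7f73e.Emb

/-!
# Stage 1: the labels of the vertices `1, …, h-1` are `δ, 2δ, …, (h-1)δ`
-/

namespace MPa7f73e

open Finset

variable {g h m : ℤ} {L M : Finset ℤ} {x : ℤ → ℤ} {c : Fin 5 → ℤ} {δ : ℤ} {n : ℤ → ℤ}

lemma coreSmall (C : Ctx g h m L M x c) (i : ℤ) (h1 : 1 ≤ i) (h2 : i < h) :
    core h m i ∧ i ≤ h + 3 * g + 20 := by
  have hg := C.hg
  have hh := C.hh
  have hm := C.hm
  unfold core
  omega

lemma miss1 (C : Ctx g h m L M x c) (D : Del g h m L M x δ n) (j : ℤ) (h1 : 1 ≤ j)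
    (h2 : j < h) (h3 : 2 * j ≠ h) : (n j + n (h - j)) * δ ∉ L := by
  obtain ⟨c1, d1⟩ := coreSmall C j h1 h2
  obtain ⟨c2, d2⟩ := coreSmall C (h - j) (by omega) (by omega)
  intro hmem
  rw [add_mul, ← D.eq j c1 d1, ← D.eq _ c2 d2] at hmem
  have := (C.xx j (h - j) c1 c2 (by omega)).1 hmem
  omega

lemma miss2 (C : Ctx g h m L M x c) (D : Del g h m L M x δ n) (j : ℤ) (h1 : 1 ≤ j)
    (h2 : j + 1 < h) : (n (j + 1) + n (h - j)) * δ ∉ L := by
  obtain ⟨H, hH⟩ := C.heven
  obtain ⟨c1, d1⟩ := coreSmall C (j + 1) (by omega) h2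
  obtain ⟨c2, d2⟩ := coreSmall C (h - j) (by omega) (by omega)
  intro hmem
  rw [add_mul, ← D.eq _ c1 d1, ← D.eq _ c2 d2] at hmem
  have := (C.xx (j + 1) (h - j) c1 c2 (by omega)).1 hmem
  omega

lemma range12 (C : Ctx g h m L M x c) (D : Del g h m L M x δ n) (i j : ℤ) (h1 : 1 ≤ i)
    (h2 : i < h) (h3 : 1 ≤ j) (h4 : j < h) (h5 : h ≤ i + j) (h6 : i + j ≤ h + 1) :
    4 * g + 13 ≤ n i + n j ∧ n i + n j ≤ h + 3 * g + 21 := by
  have hg := C.hg
  obtain ⟨c1, d1⟩ := coreSmall C i h1 h2
  obtain ⟨c2, d2⟩ := coreSmall C j h3 h4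
  have e1 := D.one_le i c1 d1
  have e2 := D.one_le j c2 d2
  have f1 := D.le i c1 d1
  have f2 := D.le j c2 d2
  constructor
  · rcases le_total i j with hij | hij
    · have := large_n C D j c2 (by omega) d2
      omega
    · have := large_n C D i c1 (by omega) d1
      omega
  · omega

/-- the two missing values -/
lemma missing_eq (C : Ctx g h m L M x c) (D : Del g h m L M x δ n) (s : ℤ)
    (h1 : 4 * g + 13 ≤ s) (h2 : s ≤ h + 3 * g + 21) (h3 : s * δ ∉ L) :
    s = n 1 + n (h - 1) ∨ s = n 2 + n (h - 1) := by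
  have hg := C.hg
  have hh := C.hh
  have r1 := range12 C D 1 (h - 1) (by omega) (by omega) (by omega) (by omega) (by omega)
    (by omega)
  have r2 := range12 C D 2 (h - 1) (by omega) (by omega) (by omega) (by omega) (by omega)
    (by omega)
  have m1 := miss1 C D 1 (by omega) (by omega) (by omega)
  have m2 := miss2 C D 1 (by omega) (by omega)
  norm_num at m2
  have hne : n 1 ≠ n 2 := by
    intro hcon
    obtain ⟨c1, d1⟩ := coreSmall C 1 (by omega) (by omega)
    obtain ⟨c2, d2⟩ := coreSmall C 2 (by omega) (by omega)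
    have := D.inj C 1 2 c1 d1 c2 d2 hcon
    omega
  have := no_three' C D s (n 1 + n (h - 1)) (n 2 + n (h - 1)) h1 r1.1 r2.1 h2 r1.2 r2.2 h3 m1 m2
  rcases this with h | h | h
  · left; exact h
  · right; exact h
  · exfalso; omega

lemma pairs (C : Ctx g h m L M x c) (D : Del g h m L M x δ n) (j : ℤ) (h1 : 1 ≤ j)
    (h2 : j + 1 < h) (h3 : 2 * j ≠ h) :
    n (j + 1) - n j = n 2 - n 1 ∨ n (j + 1) - n j = -(n 2 - n 1) := by
  have hg := C.hg
  have hh := C.hh
  have r1 := range12 C D j (h - j) (by omega) (by omega) (by omega) (by omega) (by omega)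
    (by omega)
  have r2 := range12 C D (j + 1) (h - j) (by omega) (by omega) (by omega) (by omega) (by omega)
    (by omega)
  have m1 := miss1 C D j (by omega) (by omega) (by omega)
  have m2 := miss2 C D j (by omega) (by omega)
  have e1 := missing_eq C D _ r1.1 r1.2 m1
  have e2 := missing_eq C D _ r2.1 r2.2 m2
  have hne : n j ≠ n (j + 1) := by
    intro hcon
    obtain ⟨c1, d1⟩ := coreSmall C j (by omega) (by omega)
    obtain ⟨c2, d2⟩ := coreSmall C (j + 1) (by omega) (by omega)
    have := D.inj C j (j + 1) c1 d1 c2 d2 hcon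
    omega
  omega

lemma ap_aux (C : Ctx g h m L M x c) (D : Del g h m L M x δ n) (a b : ℤ) (ha : 1 ≤ a)
    (hb : b < h) (hab : ∀ j, a ≤ j → j + 1 ≤ b → 2 * j ≠ h) :
    ∀ k : ℕ, a + k + 1 ≤ b → n (a + k + 1) - n (a + k) = n (a + 1) - n a := by
  intro k
  induction k with
  | zero => intro _; simp
  | succ k ih =>
    intro hk
    push_cast at hk ⊢
    have h1 := ih (by omega)
    have p0 := pairs C D a ha (by omega) (hab a le_rfl (by omega))
    have p1 := pairs C D (a + k + 1) (by omega) (by omega) (hab _ (by omega) (by omega))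
    have e1 : a + ((k : ℤ) + 1) = a + k + 1 := by ring
    rw [e1]
    have hne : n (a + k) ≠ n (a + k + 1 + 1) := by
      intro hcon
      obtain ⟨c1, d1⟩ := coreSmall C (a + k) (by omega) (by omega)
      obtain ⟨c2, d2⟩ := coreSmall C (a + k + 1 + 1) (by omega) (by omega)
      have := D.inj C _ _ c1 d1 c2 d2 hcon
      omega
    omega

lemma ap_aux2 (C : Ctx g h m L M x c) (D : Del g h m L M x δ n) (a b : ℤ) (ha : 1 ≤ a)
    (hb : b < h) (hab : ∀ j, a ≤ j → j + 1 ≤ b → 2 * j ≠ h) :
    ∀ k : ℕ, a + k ≤ b → n (a + k) = n a + k * (n (a + 1) - n a) := by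
  intro k
  induction k with
  | zero => intro _; simp
  | succ k ih =>
    intro hk
    push_cast at hk ⊢
    have h1 := ih (by omega)
    have h2 := ap_aux C D a b ha hb hab k (by omega)
    have e1 : a + ((k : ℤ) + 1) = a + k + 1 := by ring
    rw [e1]
    linear_combination h1 + h2

lemma stage1a (C : Ctx g h m L M x c) (D : Del g h m L M x δ n) :
    ∃ H τ τ' : ℤ, h = 2 * H ∧ 0 ≤ τ ∧ τ ≤ τ' ∧ τ' ≤ g ∧
      (∀ i, 1 ≤ i → i ≤ H → n i = i + τ) ∧ (∀ i, H + 1 ≤ i → i < h → n i = i + τ') := by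
  have hg := C.hg
  have hh := C.hh
  obtain ⟨H, hH⟩ := C.heven
  have A := ap_aux2 C D 1 H (by omega) (by omega) (by intro j _ _; omega)
  have B := ap_aux2 C D (H + 1) (h - 1) (by omega) (by omega) (by intro j _ _; omega)
  norm_num at A B
  -- difference is one
  obtain ⟨c1, d1⟩ := coreSmall C 1 (by omega) (by omega)
  obtain ⟨c2, d2⟩ := coreSmall C 2 (by omega) (by omega)
  obtain ⟨cH, dH⟩ := coreSmall C H (by omega) (by omega)
  have o1 := D.one_le 1 c1 d1
  have l1 := D.le 1 c1 d1
  have oH := D.one_le H cH dH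
  have lH := D.le H cH dH
  have hne : n 1 ≠ n 2 := by
    intro hcon
    have := D.inj C 1 2 c1 d1 c2 d2 hcon
    omega
  have hAH := A (H - 1).toNat (by omega)
  have hcast : (((H - 1).toNat : ℕ) : ℤ) = H - 1 := Int.toNat_of_nonneg (by omega)
  rw [hcast] at hAH
  have e1 : (1 : ℤ) + (H - 1) = H := by ring
  rw [e1] at hAH
  have hd : n 2 - n 1 = 1 := by
    have hlow : 0 ≤ n 2 - n 1 := by
      by_contra hcon
      push Not at hcon
      have : (H - 1) * (n 2 - n 1) ≤ (H - 1) * (-1) :=
        mul_le_mul_of_nonneg_left (by omega) (by omega)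
      omega
    have hup : n 2 - n 1 ≤ 1 := by
      by_contra hcon
      push Not at hcon
      have : (H - 1) * 2 ≤ (H - 1) * (n 2 - n 1) :=
        mul_le_mul_of_nonneg_left (by omega) (by omega)
      omega
    omega
  rw [hd] at A
  have hA : ∀ i, 1 ≤ i → i ≤ H → n i = i + (n 1 - 1) := by
    intro i hi1 hi2
    have h5 := A (i - 1).toNat (by omega)
    have hc : (((i - 1).toNat : ℕ) : ℤ) = i - 1 := Int.toNat_of_nonneg (by omega)
    rw [hc] at h5
    have e2 : (1 : ℤ) + (i - 1) = i := by ring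
    rw [e2] at h5
    omega
  -- second progression
  have p := pairs C D (H + 1) (by omega) (by omega) (by omega)
  rw [hd] at p
  have hB' : ∀ i, H + 1 ≤ i → i ≤ h - 1 →
      n i = n (H + 1) + (i - (H + 1)) * (n (H + 1 + 1) - n (H + 1)) := by
    intro i hi1 hi2
    have h5 := B (i - (H + 1)).toNat (by omega)
    have hc : (((i - (H + 1)).toNat : ℕ) : ℤ) = i - (H + 1) := Int.toNat_of_nonneg (by omega)
    rw [hc] at h5
    have e2 : H + 1 + (i - (H + 1)) = i := by ring
    rw [e2] at h5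
    exact h5
  have he : n (H + 1 + 1) - n (H + 1) = 1 := by
    rcases p with p | p
    · exact p
    · exfalso
      have b1 := hB' (h - 1) (by omega) (by omega)
      have b2 := hB' (h - 2) (by omega) (by omega)
      rw [p] at b1 b2
      have r := range12 C D 2 (h - 2) (by omega) (by omega) (by omega) (by omega) (by omega)
        (by omega)
      have m := miss1 C D 2 (by omega) (by omega) (by omega)
      have e := missing_eq C D _ r.1 r.2 m
      omega
  rw [he] at hB'
  obtain ⟨cH1, dH1⟩ := coreSmall C (H + 1) (by omega) (by omega)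
  have big := large_n C D (H + 1) cH1 (by omega) dH1
  obtain ⟨ch, dh⟩ := coreSmall C (h - 1) (by omega) (by omega)
  have lh := D.le (h - 1) ch dh
  have bh := hB' (h - 1) (by omega) (by omega)
  refine ⟨H, n 1 - 1, n (H + 1) - (H + 1), hH, by omega, ?_, by omega, hA, ?_⟩
  · by_contra hcon
    push Not at hcon
    have h5 := hA (n (H + 1) - (n 1 - 1)) (by omega) (by omega)
    obtain ⟨c5, d5⟩ := coreSmall C (n (H + 1) - (n 1 - 1)) (by omega) (by omega)
    have h6 := D.inj C (n (H + 1) - (n 1 - 1)) (H + 1) c5 d5 cH1 dH1 (by rw [h5]; ring)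
    omega
  · intro i hi1 hi2
    have := hB' i hi1 (by omega)
    omega

lemma gadget_nbr (h : ℤ) (hh : 80 ≤ h) (i : ℤ) (r q : Fin 5) (hrq : r < q)
    (hi : i + sh h r = sh h q) : 6 ≤ i ∧ i ≤ h - 6 := by
  fin_cases r <;> fin_cases q <;> simp_all [sh] <;> omega

/-- Stage 1 -/
lemma stage1 (C : Ctx g h m L M x c) :
    ∃ δ : ℤ, 0 < δ ∧ (∀ i, 1 ≤ i → i < h → x i = i * δ) ∧ h * δ ∉ L ∧ (h + 1) * δ ∉ L ∧
      (h + 2) * δ ∈ L ∧ (h + 3) * δ ∈ L := by
  have hg := C.hg
  have hh := C.hh
  have hm := C.hm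
  obtain ⟨δ, n, D⟩ := exists_del C
  obtain ⟨H, τ, τ', hH, hτ, hττ, hτg, hA, hB⟩ := stage1a C D
  have n1 := hA 1 (by omega) (by omega)
  have n2 := hA 2 (by omega) (by omega)
  have n3 := hA 3 (by omega) (by omega)
  have nh := hB (h - 1) (by omega) (by omega)
  have V : ∀ s, 4 * g + 13 ≤ s → s ≤ h + 3 * g + 21 → s * δ ∉ L →
      s = h + τ + τ' ∨ s = h + τ + τ' + 1 := by
    intro s h1 h2 h3
    have := missing_eq C D s h1 h2 h3
    omega
  have mv : (h + τ + τ') * δ ∉ L := by
    have m1 := miss1 C D 1 (by omega) (by omega) (by omega)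
    have e : n 1 + n (h - 1) = h + τ + τ' := by omega
    rw [← e]; exact m1
  have mv' : (h + τ + τ' + 1) * δ ∉ L := by
    have m1 := miss2 C D 1 (by omega) (by omega)
    norm_num at m1
    have e : n 2 + n (h - 1) = h + τ + τ' + 1 := by omega
    rw [← e]; exact m1
  -- the e-argument
  have earg : ∀ e, 4 * g + 13 ≤ e → e ≤ h + 2 * g + 15 → e ≠ h + τ + τ' →
      e ≠ h + τ + τ' + 1 → (∀ i, 1 ≤ i → i < h → e ≠ n i) →
      ∀ i, 1 ≤ i → i < h → e + n i ≠ h + τ + τ' ∧ e + n i ≠ h + τ + τ' + 1 := by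
    intro e he1 he2 he3 he4 he5
    have hel : e * δ ∈ L := by
      by_contra hcon
      have := V e he1 (by omega) hcon
      omega
    -- one of the small sums is in L
    have hsmall : ∃ i, 1 ≤ i ∧ i ≤ 3 ∧ x i + e * δ ∈ L := by
      by_contra hno
      push Not at hno
      have key : ∀ i, 1 ≤ i → i ≤ 3 → i + τ + e = h + τ + τ' ∨ i + τ + e = h + τ + τ' + 1 := by
        intro i hi1 hi2
        have h5 := hno i hi1 hi2
        obtain ⟨ci, di⟩ := coreSmall C i hi1 (by omega)
        rw [D.eq i ci di, hA i hi1 (by omega), ← add_mul] at h5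
        exact V _ (by omega) (by omega) h5
      have k1 := key 1 (by omega) (by omega)
      have k2 := key 2 (by omega) (by omega)
      have k3 := key 3 (by omega) (by omega)
      omega
    obtain ⟨i0, hi0, hi0', hi0L⟩ := hsmall
    obtain ⟨ci0, di0⟩ := coreSmall C i0 hi0 (by omega)
    have hown : Own h m x c (e * δ) := by
      by_contra hno
      exact C.cross (x i0) (e * δ) (Or.inl ⟨i0, ci0, rfl⟩) hel hno hi0L
    rcases hown with ⟨k, hk, hke⟩ | ⟨r, hr⟩
    · -- core
      have hk2 : h + 2 ≤ k := by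
        by_contra hcon
        have hkh : k < h := by
          unfold core at hk
          omega
        obtain ⟨ck, dk⟩ := coreSmall C k hk.1 hkh
        rw [D.eq k ck dk] at hke
        have h6 := mul_right_cancel₀ (ne_of_gt D.pos) hke
        exact he5 k hk.1 hkh h6
      have h7 := nu_mul_delta C D e (by omega) (by omega)
      have h8 := lowerNu C k hk
      rw [← hke] at h8
      intro i hi1 hi2
      obtain ⟨ci, di⟩ := coreSmall C i hi1 hi2
      have h9 := (C.xx k i hk ci (by omega)).2 (by omega)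
      rw [← hke, D.eq i ci di, ← add_mul] at h9
      constructor
      · intro h10
        rw [h10] at h9
        exact mv h9
      · intro h10
        rw [h10] at h9
        exact mv' h9
    · exfalso
      rw [hr] at hi0L
      obtain ⟨q, hq1, hq2⟩ := (C.xcadj i0 r ci0).1 hi0L
      have := gadget_nbr h (by omega) i0 r q hq1 hq2
      omega
  -- τ = 0
  have hτ0 : τ = 0 := by
    by_contra hne
    have h5 := earg (h + τ') (by omega) (by omega) (by omega) (by omega) (by
      intro i hi1 hi2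
      rcases le_or_gt i H with hi | hi
      · rw [hA i hi1 hi]; omega
      · rw [hB i (by omega) hi2]; omega) 1 (by omega) (by omega)
    omega
  have hτ'0 : τ' = 0 := by
    by_contra hne
    have nH := hA H (by omega) (by omega)
    have h5 := earg (H + τ') (by omega) (by omega) (by omega) (by omega) (by
      intro i hi1 hi2
      rcases le_or_gt i H with hi | hi
      · rw [hA i hi1 hi]; omega
      · rw [hB i (by omega) hi2]; omega) H (by omega) (by omega)
    omega
  subst hτ0
  subst hτ'0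
  norm_num at mv mv' V
  refine ⟨δ, D.pos, ?_, mv, mv', ?_, ?_⟩
  · intro i hi1 hi2
    obtain ⟨ci, di⟩ := coreSmall C i hi1 hi2
    rw [D.eq i ci di]
    rcases le_or_gt i H with hi | hi
    · rw [hA i hi1 hi]; simp
    · rw [hB i (by omega) hi2]; simp
  · by_contra hcon
    have := V (h + 2) (by omega) (by omega) hcon
    omega
  · by_contra hcon
    have := V (h + 3) (by omega) (by omega) hcon
    omega

end MPa7f73e
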