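import Mathlib
import Pool.Agent.MPa7f73e.Stage1

/-!
# Stage 2: the core labels are exactly the multiples `jδ`, `j` core
-/

namespace MPa7f73e

open Finset

variable {h m : ℤ} {L : Finset ℤ} {x : ℤ → ℤ} {c : Fin 5 → ℤ} {δ : ℤ}

/-- The conclusion of stage 1 together with the size hypotheses. -/
structure S1 (h m : ℤ) (L : Finset ℤ) (x : ℤ → ℤ) (c : Fin 5 → ℤ) (δ : ℤ) : Prop
    extends Emb h m L x c where
  heven : ∃ H, h = 2 * H
  hh : 80 ≤ h
  hm : 20 * (h + 10) ≤ m
  dpos : 0 < δ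
  xeq : ∀ i, 1 ≤ i → i < h → x i = i * δ
  a0 : h * δ ∉ L
  a1 : (h + 1) * δ ∉ L
  a2 : (h + 2) * δ ∈ L
  a3 : (h + 3) * δ ∈ L

lemma Ctx.toS1 {g : ℤ} {M : Finset ℤ} (C : Ctx g h m L M x c) : ∃ δ, S1 h m L x c δ := by
  obtain ⟨δ, h1, h2, h3, h4, h5, h6⟩ := stage1 C
  have hg := C.hg
  have hh := C.hh
  have hm := C.hm
  exact ⟨δ, { C.toEmb with
    heven := C.heven
    hh := by omega
    hm := by omega
    dpos := h1
    xeq := h2
    a0 := h3
    a1 := h4
    a2 := h5
    a3 := h6 }⟩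

lemma S1.d (S : S1 h m L x c δ) (y : ℤ) (hy : y ∈ L) (hyd : y + δ ∈ L) (hne : y ≠ δ) :
    ∃ k, core h m k ∧ y = x k ∧ k ≠ 1 ∧ k + 1 ≤ m ∧ k + 1 ≠ h ∧ k + 1 ≠ h + 1 := by
  have hh := S.hh
  have hm := S.hm
  have c1 : core h m 1 := by unfold core; omega
  have x1 : x 1 = δ := by rw [S.xeq 1 (by omega) (by omega)]; ring
  have hown : Own h m x c y := by
    by_contra hno
    apply S.cross (x 1) y (Or.inl ⟨1, c1, rfl⟩) hy hno
    rw [x1, add_comm]; exact hyd
  rcases hown with ⟨k, hk, hke⟩ | ⟨r, hr⟩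
  · have hk1 : k ≠ 1 := by
      intro hcon
      rw [hcon, x1] at hke
      exact hne hke
    refine ⟨k, hk, hke, hk1, ?_⟩
    have := (S.xx k 1 hk c1 hk1).1 (by rw [← hke, x1]; exact hyd)
    omega
  · exfalso
    obtain ⟨q, hq1, hq2⟩ := (S.xcadj 1 r c1).1 (by rw [x1, ← hr, add_comm]; exact hyd)
    have := gadget_nbr h (by omega) 1 r q hq1 hq2
    omega

lemma S1.e (S : S1 h m L x c δ) (k : ℤ) (hk : core h m k) (hk2 : h + 2 ≤ k) :
    ∃ N : ℕ, x k + N * δ = x (m - 1) ∧ ∀ j : ℕ, j ≤ N + 1 → x k + j * δ ∈ L := by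
  classical
  have hh := S.hh
  have hm := S.hm
  have hδ := S.dpos
  have c1 : core h m 1 := by unfold core; omega
  have c2 : core h m 2 := by unfold core; omega
  have x1 : x 1 = δ := by rw [S.xeq 1 (by omega) (by omega)]; ring
  have x2 : x 2 = 2 * δ := S.xeq 2 (by omega) (by omega)
  have x4 : x 4 = 4 * δ := S.xeq 4 (by omega) (by omega)
  have hxk := S.pos _ (S.xmem k hk)
  have hex : ∃ N' : ℕ, x k + N' * δ ∉ L := by
    obtain ⟨B, hB⟩ := L.exists_le
    refine ⟨B.toNat + 1, ?_⟩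
    intro hmem
    have h1 := hB _ hmem
    have h2 : ((B.toNat + 1 : ℕ) : ℤ) ≤ ((B.toNat + 1 : ℕ) : ℤ) * δ := by nlinarith
    push_cast at h1 h2
    omega
  have hspec := Nat.find_spec hex
  have hmin : ∀ j : ℕ, j < Nat.find hex → x k + j * δ ∈ L := by
    intro j hj
    have := Nat.find_min hex hj
    simpa using this
  set N' := Nat.find hex with hN'
  have h0 : N' ≠ 0 := by
    intro hcon
    rw [hcon] at hspec
    apply hspec
    simpa using S.xmem k hk
  have h1 : N' ≠ 1 := by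
    intro hcon
    rw [hcon] at hspec
    apply hspec
    have := (S.xx k 1 hk c1 (by omega)).2 (by unfold core at hk; omega)
    rw [x1] at this
    simpa using this
  obtain ⟨N, hN⟩ : ∃ N, N' = N + 2 := ⟨N' - 2, by omega⟩
  rw [hN] at hspec hmin
  have y0 := hmin N (by omega)
  have y1 := hmin (N + 1) (by omega)
  have y2 : x k + N * δ + 2 * δ ∉ L := by
    have : x k + N * δ + 2 * δ = x k + ((N + 2 : ℕ) : ℤ) * δ := by push_cast; ring
    rw [this]; exact hspec
  have y1' : x k + N * δ + δ ∈ L := by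
    have : x k + N * δ + δ = x k + ((N + 1 : ℕ) : ℤ) * δ := by push_cast; ring
    rw [this]; exact y1
  have small : ∀ j : ℤ, 1 ≤ j → j < h → x k ≠ j * δ := by
    intro j hj1 hj2 hcon
    rw [← S.xeq j hj1 hj2] at hcon
    have cj : core h m j := by unfold core; omega
    have := S.xinj k j hk cj hcon
    omega
  have posmul : ∀ j : ℤ, x k = j * δ → 1 ≤ j := by
    intro j hj
    by_contra hcon
    push Not at hcon
    nlinarith
  have hyne : x k + N * δ ≠ δ := by
    intro hcon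
    have h5 : x k = (1 - N) * δ := by linarith
    have h6 := posmul _ h5
    exact small (1 - N) (by omega) (by omega) h5
  obtain ⟨k', hk', hyk, hk1, hk3, hk4, hk5⟩ := S.d _ y0 y1' hyne
  have hk2' : k' ≠ 2 := by
    intro hcon
    rw [hcon, x2] at hyk
    rw [hyk] at y2
    apply y2
    have : 2 * δ + 2 * δ = x 4 := by rw [x4]; ring
    rw [this]
    exact S.xmem 4 (by unfold core; omega)
  have hxx := S.xx k' 2 hk' c2 hk2'
  rw [← hyk, x2] at hxx
  have hcases : k' = m - 1 ∨ k' = h - 2 := by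
    have := hk'
    unfold core at this
    have h7 : ¬ (k' + 2 ≤ m ∧ k' + 2 ≠ h ∧ k' + 2 ≠ h + 1) := fun h => y2 (hxx.2 h)
    omega
  rcases hcases with hc | hc
  · refine ⟨N, ?_, ?_⟩
    · rw [hyk, hc]
    · intro j hj
      exact hmin j (by omega)
  · exfalso
    rw [hc, S.xeq (h - 2) (by omega) (by omega)] at hyk
    have h5 : x k = (h - 2 - N) * δ := by linarith
    have h6 := posmul _ h5
    exact small (h - 2 - N) (by omega) (by omega) h5

/-- Stage 2 -/
lemma S1.stage2 (S : S1 h m L x c δ) :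
    (∀ j, core h m j → ∃ i, core h m i ∧ x i = j * δ) ∧
    (∀ i, core h m i → ∃ j, core h m j ∧ x i = j * δ) ∧ m * δ ∈ L := by
  classical
  have hh := S.hh
  have hm := S.hm
  have hδ := S.dpos
  -- (h+2) δ is a core label
  have notsmall : ∀ j k : ℤ, h ≤ j → core h m k → x k = j * δ → h + 2 ≤ k := by
    intro j k hj hk hkj
    by_contra hcon
    have hkh : k < h := by unfold core at hk; omega
    rw [S.xeq k hk.1 hkh] at hkj
    have := mul_right_cancel₀ (ne_of_gt hδ) hkj
    omega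
  have hL : ∀ j : ℤ, h + 2 ≤ j → j * δ ∈ L → (j + 1) * δ ∈ L →
      ∃ k, core h m k ∧ h + 2 ≤ k ∧ x k = j * δ := by
    intro j hj h1 h2
    obtain ⟨k, hk, hke, -⟩ := S.d (j * δ) h1 (by rw [add_mul, one_mul] at h2; exact h2) (by
      intro hcon
      have : (j - 1) * δ = 0 := by linarith
      rcases mul_eq_zero.1 this with h | h
      · omega
      · omega)
    exact ⟨k, hk, notsmall j k (by omega) hk hke.symm, hke.symm⟩
  obtain ⟨k0, hk0, hk0', hk0e⟩ := hL (h + 2) le_rfl S.a2 (by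
    have : h + 2 + 1 = h + 3 := by ring
    rw [this]; exact S.a3)
  obtain ⟨N0, hN0, hN0'⟩ := S.e k0 hk0 hk0'
  set X : ℤ := h + 2 + N0 with hX
  have hXe : x (m - 1) = X * δ := by
    rw [← hN0, hk0e, hX]; ring
  have hmem : ∀ j : ℤ, h + 2 ≤ j → j ≤ X + 1 → j * δ ∈ L := by
    intro j hj1 hj2
    have h5 := hN0' (j - (h + 2)).toNat (by omega)
    have hc : (((j - (h + 2)).toNat : ℕ) : ℤ) = j - (h + 2) := Int.toNat_of_nonneg (by omega)
    rw [hc, hk0e, ← add_mul] at h5
    have : h + 2 + (j - (h + 2)) = j := by ring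
    rw [this] at h5
    exact h5
  -- each large core label
  have hbig : ∀ k, core h m k → h + 2 ≤ k → ∃ j, h + 2 ≤ j ∧ j ≤ X ∧ x k = j * δ := by
    intro k hk hk2
    obtain ⟨N, hN, hN'⟩ := S.e k hk hk2
    have h5 : x k = (X - N) * δ := by linarith
    have h6 : 1 ≤ X - N := by
      by_contra hcon
      push Not at hcon
      have := S.pos _ (S.xmem k hk)
      nlinarith
    refine ⟨X - N, ?_, by omega, h5⟩
    by_contra hcon
    push Not at hcon
    have hxL := S.xmem k hk
    rw [h5] at hxL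
    have h7 : X - N ≠ h := by
      intro h; rw [h] at hxL; exact S.a0 hxL
    have h8 : X - N ≠ h + 1 := by
      intro h; rw [h] at hxL; exact S.a1 hxL
    have h9 : X - N < h := by omega
    rw [← S.xeq _ h6 h9] at h5
    have := S.xinj k _ hk (by unfold core; omega) h5
    omega
  have hback : ∀ j, h + 2 ≤ j → j ≤ X → ∃ k, core h m k ∧ h + 2 ≤ k ∧ x k = j * δ := by
    intro j hj1 hj2
    exact hL j hj1 (hmem j hj1 (by omega)) (hmem (j + 1) (by omega) (by omega))
  -- counting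
  have hcount : (Icc (h + 2) (m - 1)).image x = (Icc (h + 2) X).image (fun j => j * δ) := by
    ext y
    rw [mem_image, mem_image]
    constructor
    · rintro ⟨k, hk, rfl⟩
      rw [mem_Icc] at hk
      obtain ⟨j, hj1, hj2, hj3⟩ := hbig k (by unfold core; omega) hk.1
      exact ⟨j, by rw [mem_Icc]; exact ⟨hj1, hj2⟩, hj3.symm⟩
    · rintro ⟨j, hj, rfl⟩
      rw [mem_Icc] at hj
      obtain ⟨k, hk1, hk2, hk3⟩ := hback j hj.1 hj.2
      refine ⟨k, ?_, hk3⟩
      rw [mem_Icc]
      unfold core at hk1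
      omega
  have hXm : X = m - 1 := by
    have h5 := congrArg Finset.card hcount
    rw [card_image_of_injOn, card_image_of_injective, Int.card_Icc, Int.card_Icc] at h5
    · omega
    · intro a b hab
      exact mul_right_cancel₀ (ne_of_gt hδ) hab
    · intro a ha b hb hab
      simp only [coe_Icc, Set.mem_Icc] at ha hb
      exact S.xinj a b (by unfold core; omega) (by unfold core; omega) hab
  refine ⟨?_, ?_, ?_⟩
  · intro j hj
    by_cases hjh : j < h
    · exact ⟨j, hj, S.xeq j hj.1 hjh⟩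
    · obtain ⟨k, hk1, -, hk3⟩ := hback j (by unfold core at hj; omega)
        (by unfold core at hj; omega)
      exact ⟨k, hk1, hk3⟩
  · intro i hi
    by_cases hih : i < h
    · exact ⟨i, hi, S.xeq i hi.1 hih⟩
    · obtain ⟨j, hj1, hj2, hj3⟩ := hbig i hi (by unfold core at hi; omega)
      exact ⟨j, by unfold core; omega, hj3⟩
  · exact hmem m (by omega) (by omega)

end MPa7f73e
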