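import Mathlib
import Pool.Agent.MPa7f73e.Stage2

/-!
# Stage 3: the gadget labels, and the half lemma
-/

namespace MPa7f73e

open Finset

variable {h m : ℤ} {L : Finset ℤ} {x : ℤ → ℤ} {c : Fin 5 → ℤ} {δ : ℤ}

/-- The final rigidity statement: own labels are `sδ/2`, `s ∈ S(m,h)`. -/
structure Rigid (h m : ℤ) (L : Finset ℤ) (x : ℤ → ℤ) (c : Fin 5 → ℤ) (δ : ℤ) : Prop where
  dpos : 0 < δ
  coreIn : ∀ j, core h m j → j * δ ∈ L ∧ Own h m x c (j * δ)
  ownForm : ∀ y, Own h m x c y →
    (∃ j, core h m j ∧ y = j * δ) ∨ ∃ r, 2 * y = (33 + 2 * sh h r) * δ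
  top : m * δ ∈ L
  topNot : ¬ Own h m x c (m * δ)
  half : ∀ y ∈ L, ¬ Own h m x c y → ∀ s, 2 * y = s * δ → 2 * m ≤ s

lemma gadget27 (h : ℤ) (hh : 80 ≤ h) (p q : Fin 5) (hpq : p < q)
    (e : 27 + sh h p = sh h q) : p = 1 := by
  fin_cases p <;> fin_cases q <;>
    first | rfl | (exfalso; revert hpq; decide) | (exfalso; simp [sh] at e; omega)

lemma gadget21 (h : ℤ) (hh : 80 ≤ h) (p q : Fin 5) (hpq : p < q)
    (e : 21 + sh h p = sh h q) : p = 2 := by
  fin_cases p <;> fin_cases q <;>
    first | rfl | (exfalso; revert hpq; decide) | (exfalso; simp [sh] at e; omega)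

lemma gadget12 (h : ℤ) (hh : 80 ≤ h) (p q : Fin 5) (hpq : p < q)
    (e : 12 + sh h p = sh h q) : p = 3 := by
  fin_cases p <;> fin_cases q <;>
    first | rfl | (exfalso; revert hpq; decide) | (exfalso; simp [sh] at e; omega)

lemma gadget9 (h : ℤ) (hh : 80 ≤ h) (p q : Fin 5) (hpq : p < q)
    (e : 9 + sh h p = sh h q) : p = 2 := by
  fin_cases p <;> fin_cases q <;>
    first | rfl | (exfalso; revert hpq; decide) | (exfalso; simp [sh] at e; omega)

lemma gadget33 (h : ℤ) (hh : 80 ≤ h) (b : ℤ) (hb : b = 33 ∨ b = 34) (q : Fin 5)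
    (e : b + sh h 1 = sh h q) : False := by
  fin_cases q <;> simp [sh] at e <;> omega

lemma S1.rigid (S : S1 h m L x c δ) : Rigid h m L x c δ := by
  classical
  have hh := S.hh
  have hm := S.hm
  have hδ := S.dpos
  obtain ⟨H, hH⟩ := S.heven
  obtain ⟨fwd, bwd, top⟩ := S.stage2
  have jpos : ∀ j : ℤ, j * δ ∈ L → 1 ≤ j := by
    intro j hj
    have := S.pos _ hj
    by_contra hcon
    push Not at hcon
    nlinarith
  have coreL : ∀ j, core h m j → j * δ ∈ L := by
    intro j hj
    obtain ⟨i, hi, hie⟩ := fwd j hj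
    rw [← hie]
    exact S.xmem i hi
  have multL : ∀ j, j * δ ∈ L → j < m → core h m j := by
    intro j hj hjm
    have h1 := jpos j hj
    refine ⟨h1, hjm, ?_, ?_⟩
    · intro h; rw [h] at hj; exact S.a0 hj
    · intro h; rw [h] at hj; exact S.a1 hj
  have cne : ∀ r j, j < m → c r ≠ j * δ := by
    intro r j hj hcon
    have h1 : j * δ ∈ L := by rw [← hcon]; exact S.cmem r
    obtain ⟨i, hi, hie⟩ := fwd j (multL j h1 hj)
    exact S.xc i r hi (by rw [hie, hcon])
  have cs : ∀ j : ℤ, 1 ≤ j → j < h → core h m j := by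
    intro j h1 h2
    unfold core
    omega
  -- q r ∈ L
  have q1 : c 0 + (h - 33) * δ ∈ L := by
    have := (S.xcadj (h - 33) 0 (cs _ (by omega) (by omega))).2 ⟨1, by decide, by simp⟩
    rw [S.xeq _ (by omega) (by omega), add_comm] at this
    exact this
  have q2 : c 0 + (h - 27) * δ ∈ L := by
    have := (S.xcadj (h - 27) 0 (cs _ (by omega) (by omega))).2 ⟨2, by decide, by simp⟩
    rw [S.xeq _ (by omega) (by omega), add_comm] at this
    exact this
  have q3 : c 0 + (h - 18) * δ ∈ L := by
    have := (S.xcadj (h - 18) 0 (cs _ (by omega) (by omega))).2 ⟨3, by decide, by simp⟩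
    rw [S.xeq _ (by omega) (by omega), add_comm] at this
    exact this
  have q4 : c 0 + (h - 6) * δ ∈ L := by
    have := (S.xcadj (h - 6) 0 (cs _ (by omega) (by omega))).2 ⟨4, by decide, by simp⟩
    rw [S.xeq _ (by omega) (by omega), add_comm] at this
    exact this
  -- general argument
  have own_c : ∀ a b : ℤ, 0 ≤ a → c 0 + a * δ ∈ L → 1 ≤ b → b < h → c 0 + (a + b) * δ ∈ L →
      ∃ p q, c 0 + a * δ = c p ∧ p < q ∧ b + sh h p = sh h q := by
    intro a b ha h1 hb1 hb2 h2
    have xb := S.xeq b hb1 hb2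
    have cb := cs b hb1 hb2
    have e1 : x b + (c 0 + a * δ) = c 0 + (a + b) * δ := by rw [xb]; ring
    have hown : Own h m x c (c 0 + a * δ) := by
      by_contra hno
      exact S.cross (x b) _ (Or.inl ⟨b, cb, rfl⟩) h1 hno (by rw [e1]; exact h2)
    rcases hown with ⟨i, hi, hie⟩ | ⟨p, hp⟩
    · exfalso
      obtain ⟨j, hj, hje⟩ := bwd i hi
      have : c 0 = (j - a) * δ := by
        rw [hje] at hie
        linarith
      exact cne 0 (j - a) (by unfold core at hj; omega) this
    · rw [hp] at e1
      obtain ⟨q, hq1, hq2⟩ := (S.xcadj b p cb).1 (by rw [e1]; exact h2)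
      exact ⟨p, q, hp, hq1, hq2⟩
  have c1 : c 1 = c 0 + (h - 33) * δ := by
    obtain ⟨p, q, hp, hpq, he⟩ := own_c (h - 33) 27 (by omega) q1 (by omega) (by omega) (by
      have : h - 33 + 27 = h - 6 := by ring
      rw [this]; exact q4)
    rw [hp, gadget27 h hh p q hpq he]
  have c2 : c 2 = c 0 + (h - 27) * δ := by
    obtain ⟨p, q, hp, hpq, he⟩ := own_c (h - 27) 21 (by omega) q2 (by omega) (by omega) (by
      have : h - 27 + 21 = h - 6 := by ring
      rw [this]; exact q4)
    rw [hp, gadget21 h hh p q hpq he]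
  have c3 : c 3 = c 0 + (h - 18) * δ := by
    obtain ⟨p, q, hp, hpq, he⟩ := own_c (h - 18) 12 (by omega) q3 (by omega) (by omega) (by
      have : h - 18 + 12 = h - 6 := by ring
      rw [this]; exact q4)
    rw [hp, gadget12 h hh p q hpq he]
  -- u = c 0 + c 2
  have u1 : c 0 + c 2 ∈ L := (S.ccadj 0 2 (by decide)).2 (by decide)
  have u2 : c 0 + c 3 ∈ L := (S.ccadj 0 3 (by decide)).2 (by decide)
  have x9 := S.xeq 9 (by omega) (by omega)
  have e9 : x 9 + (c 0 + c 2) = c 0 + c 3 := by rw [x9, c2, c3]; ring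
  have hu : Own h m x c (c 0 + c 2) := by
    by_contra hno
    exact S.cross (x 9) _ (Or.inl ⟨9, cs 9 (by omega) (by omega), rfl⟩) u1 hno
      (by rw [e9]; exact u2)
  obtain ⟨w, hw, hwe⟩ : ∃ w, core h m w ∧ c 0 + c 2 = w * δ := by
    rcases hu with ⟨i, hi, hie⟩ | ⟨p, hp⟩
    · obtain ⟨j, hj, hje⟩ := bwd i hi
      exact ⟨j, hj, by rw [hie, hje]⟩
    · exfalso
      rw [hp] at e9
      obtain ⟨q, hq1, hq2⟩ := (S.xcadj 9 p (cs 9 (by omega) (by omega))).1
        (by rw [e9]; exact u2)
      have := gadget9 h hh p q hq1 hq2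
      rw [this] at hp
      have := S.pos _ (S.cmem 0)
      omega
  obtain ⟨s, hs⟩ : ∃ s, s = w - (h - 27) := ⟨_, rfl⟩
  have hs2 : 2 * c 0 = s * δ := by
    rw [c2] at hwe
    rw [hs]
    linarith
  have c0pos := S.pos _ (S.cmem 0)
  have hs1 : 1 ≤ s := by
    by_contra hcon
    push Not at hcon
    nlinarith
  have hodd : s % 2 = 1 := by
    by_contra hcon
    obtain ⟨b, hb⟩ : ∃ b, s = 2 * b := ⟨s / 2, by omega⟩
    have : c 0 = b * δ := by
      rw [hb] at hs2
      linarith
    exact cne 0 b (by unfold core at hw; omega) this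
  have hs33 : s = 33 := by
    have h01 : c 0 + c 1 ∉ L := by
      intro hcon
      have := (S.ccadj 0 1 (by decide)).1 hcon
      exact this.1 ⟨rfl, rfl⟩
    have e : c 0 + c 1 = (s + h - 33) * δ := by
      rw [c1]
      linarith
    rw [e] at h01
    have : ¬ core h m (s + h - 33) := fun hc => h01 (coreL _ hc)
    unfold core at this hw
    omega
  rw [hs33] at hs2
  have c4 : c 4 = c 0 + (h - 6) * δ := by
    have e : c 0 + (c 0 + (h - 6) * δ) = (h + 27) * δ := by linarith
    have hown : Own h m x c (c 0 + (h - 6) * δ) := by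
      by_contra hno
      apply S.cross (c 0) _ (Or.inr ⟨0, rfl⟩) q4 hno
      rw [e]
      exact coreL _ (by unfold core; omega)
    rcases hown with ⟨i, hi, hie⟩ | ⟨p, hp⟩
    · exfalso
      obtain ⟨j, hj, hje⟩ := bwd i hi
      have : c 0 = (j - (h - 6)) * δ := by
        rw [hje] at hie
        linarith
      exact cne 0 (j - (h - 6)) (by unfold core at hj; omega) this
    · have hne : ∀ a : ℤ, a ≠ h - 6 → c p ≠ c 0 + a * δ := by
        intro a ha hcon
        rw [← hp] at hcon
        have : (h - 6) * δ = a * δ := by linarith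
        have := mul_right_cancel₀ (ne_of_gt hδ) this
        exact ha this.symm
      have p0 : p ≠ 0 := by
        intro hcon
        apply hne 0 (by omega)
        rw [hcon]; ring
      have p1 : p ≠ 1 := by
        intro hcon
        apply hne (h - 33) (by omega)
        rw [hcon]; exact c1
      have p2 : p ≠ 2 := by
        intro hcon
        apply hne (h - 27) (by omega)
        rw [hcon]; exact c2
      have p3 : p ≠ 3 := by
        intro hcon
        apply hne (h - 18) (by omega)
        rw [hcon]; exact c3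
      have p4 : p = 4 := by
        fin_cases p <;> simp_all
      rw [hp, p4]
  have call : ∀ r, c r = c 0 + sh h r * δ := by
    intro r
    fin_cases r
    · simp
    · simpa using c1
    · simpa using c2
    · simpa using c3
    · simpa using c4
  have shb : ∀ r, 0 ≤ sh h r ∧ sh h r ≤ h - 6 := by
    intro r
    fin_cases r <;> simp <;> omega
  refine ⟨hδ, ?_, ?_, top, ?_, ?_⟩
  · intro j hj
    refine ⟨coreL j hj, ?_⟩
    obtain ⟨i, hi, hie⟩ := fwd j hj
    exact Or.inl ⟨i, hi, hie.symm⟩
  · intro y hy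
    rcases hy with ⟨i, hi, rfl⟩ | ⟨r, rfl⟩
    · left
      obtain ⟨j, hj, hje⟩ := bwd i hi
      exact ⟨j, hj, hje⟩
    · right
      refine ⟨r, ?_⟩
      rw [call r]
      linarith
  · intro hown
    rcases hown with ⟨i, hi, hie⟩ | ⟨r, hr⟩
    · obtain ⟨j, hj, hje⟩ := bwd i hi
      rw [hje] at hie
      have := mul_right_cancel₀ (ne_of_gt hδ) hie
      unfold core at hj
      omega
    · have h1 : (2 * m) * δ = (33 + 2 * sh h r) * δ := by
        have := call r
        linarith
      have h2 := mul_right_cancel₀ (ne_of_gt hδ) h1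
      have := shb r
      omega
  · intro y hy hno s hys
    by_contra hcon
    push Not at hcon
    have ypos := S.pos _ hy
    have hs0 : 1 ≤ s := by
      by_contra hcon
      push Not at hcon
      nlinarith
    rcases Int.even_or_odd' s with ⟨b, hb | hb⟩
    · have hyb : y = b * δ := by
        rw [hb] at hys
        linarith
      have hyL := hy
      rw [hyb] at hyL
      obtain ⟨i, hi, hie⟩ := fwd b (multL b hyL (by omega))
      exact hno (Or.inl ⟨i, hi, by rw [hie, hyb]⟩)
    · obtain ⟨a, ha⟩ : ∃ a, a = b - 16 := ⟨_, rfl⟩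
      have hya : y = c 0 + a * δ := by
        rw [hb] at hys
        rw [ha]
        linarith
      rcases lt_trichotomy a 0 with h0 | h0 | h0
      · -- y + (-a) δ = c 0
        have cb := cs (-a) (by omega) (by omega)
        apply S.cross (x (-a)) y (Or.inl ⟨-a, cb, rfl⟩) hy hno
        rw [S.xeq (-a) (by omega) (by omega), hya]
        have : -a * δ + (c 0 + a * δ) = c 0 := by ring
        rw [this]
        exact S.cmem 0
      · apply hno
        right
        exact ⟨0, by rw [hya, h0]; ring⟩
      · by_cases hca : core h m a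
        · obtain ⟨i, hi, hie⟩ := fwd a hca
          have hmem : x i + c 0 ∈ L := by
            rw [hie, add_comm, ← hya]; exact hy
          obtain ⟨q, hq1, hq2⟩ := (S.xcadj i 0 hi).1 hmem
          rw [sh0, add_zero] at hq2
          have := shb q
          have hxi := S.xeq i hi.1 (by omega)
          apply hno
          right
          refine ⟨q, ?_⟩
          rw [hya, call q, ← hq2, ← hxi, hie]
        · have hah : a = h ∨ a = h + 1 := by
            unfold core at hca
            omega
          have cb := cs (a - h + 33) (by omega) (by omega)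
          have hmem : x (a - h + 33) + c 1 ∈ L := by
            rw [S.xeq _ (by omega) (by omega), c1]
            have : (a - h + 33) * δ + (c 0 + (h - 33) * δ) = y := by rw [hya]; ring
            rw [this]; exact hy
          obtain ⟨q, hq1, hq2⟩ := (S.xcadj _ 1 cb).1 hmem
          exact gadget33 h hh (a - h + 33) (by omega) q hq2

end MPa7f73e
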