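import Mathlib
import Pool.Agent.MPa7f73e.Stage3
import Pool.Agent.MPa7f73e.Embed

/-!
# Two copies in one sum labelling with one isolated vertex are impossible
-/

namespace MPa7f73e

open Finset

lemma card_lower {h m : ℤ} {L : Finset ℤ} {x : ℤ → ℤ} {c : Fin 5 → ℤ} (E : Emb h m L x c)
    (M : Finset ℤ) (hM : ∀ i, core h m i → x i ∈ M) : m - 3 ≤ (M.card : ℤ) := by
  classical
  have hsub : (Icc (1 : ℤ) (m - 1) \ {h, h + 1}).image x ⊆ M := by
    intro y hy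
    rw [mem_image] at hy
    obtain ⟨i, hi, rfl⟩ := hy
    rw [mem_sdiff, mem_Icc] at hi
    simp only [mem_insert, mem_singleton, not_or] at hi
    exact hM i (by unfold core; omega)
  have h1 := card_le_card hsub
  rw [card_image_of_injOn] at h1
  · have h2 := le_card_sdiff ({h, h + 1} : Finset ℤ) (Icc (1 : ℤ) (m - 1))
    have h3 : ({h, h + 1} : Finset ℤ).card ≤ 2 := card_le_two
    rw [Int.card_Icc] at h2
    omega
  · intro a ha b hb hab
    simp only [coe_sdiff, coe_Icc, coe_insert, coe_singleton, Set.mem_sdiff, Set.mem_Icc,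
      Set.mem_insert_iff, Set.mem_singleton_iff, not_or] at ha hb
    exact E.xinj a b (by unfold core; omega) (by unfold core; omega) hab

open Classical in
lemma card_upper (h m : ℤ) (hm : 1 ≤ m) (L : Finset ℤ) (x : ℤ → ℤ) (c : Fin 5 → ℤ) :
    ((L.filter (fun y => Own h m x c y)).card : ℤ) ≤ m + 4 := by
  have hsub : L.filter (fun y => Own h m x c y) ⊆
      (Icc (1 : ℤ) (m - 1)).image x ∪ (univ : Finset (Fin 5)).image c := by
    intro y hy
    rw [mem_filter] at hy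
    rw [mem_union]
    rcases hy.2 with ⟨i, hi, rfl⟩ | ⟨r, rfl⟩
    · left
      apply mem_image_of_mem
      rw [mem_Icc]
      unfold core at hi
      omega
    · right
      exact mem_image_of_mem _ (mem_univ r)
  have h1 := card_le_card hsub
  have h2 := card_union_le ((Icc (1 : ℤ) (m - 1)).image x) ((univ : Finset (Fin 5)).image c)
  have h3 : ((Icc (1 : ℤ) (m - 1)).image x).card ≤ (Icc (1 : ℤ) (m - 1)).card := card_image_le
  have h4 : ((univ : Finset (Fin 5)).image c).card ≤ 5 := by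
    refine card_image_le.trans ?_
    simp
  rw [Int.card_Icc] at h3
  omega

open Classical in
/-- first norm bound: the norm on the whole label set -/
lemma nu_first {h₁ m h₂ n : ℤ} {L : Finset ℤ} {x₁ x₂ : ℤ → ℤ} {c₁ c₂ : Fin 5 → ℤ}
    (E₁ : Emb h₁ m L x₁ c₁) (z : ℤ) (hn : 1 ≤ n)
    (hcov : ∀ y ∈ L, Own h₁ m x₁ c₁ y ∨ Own h₂ n x₂ c₂ y ∨ y = z)
    (i : ℤ) (hi : core h₁ m i) : (nu L (x₁ i) : ℤ) ≤ i + (n + 12) := by
  have h1 := nu_bound E₁ L (Subset.refl L) i hi (L.filter (fun y => ¬ Own h₁ m x₁ c₁ y)) (by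
    intro w hw h1 h2
    rw [mem_filter]
    refine ⟨hw, ?_⟩
    rcases h2 with h2 | h2
    · exact h2
    · exact absurd h2 h1)
  have hsub : L.filter (fun y => ¬ Own h₁ m x₁ c₁ y) ⊆
      L.filter (fun y => Own h₂ n x₂ c₂ y) ∪ {z} := by
    intro y hy
    rw [mem_filter] at hy
    rw [mem_union, mem_filter, mem_singleton]
    rcases hcov y hy.1 with h | h | h
    · exact absurd h hy.2
    · left; exact ⟨hy.1, h⟩
    · right; exact h
  have h2 := card_le_card hsub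
  have h3 := card_union_le (L.filter (fun y => Own h₂ n x₂ c₂ y)) {z}
  have h4 := card_upper h₂ n hn L x₂ c₂
  rw [card_singleton] at h3
  omega

open Classical in
/-- second norm bound: the norm on the labels of the second graph -/
lemma nu_second {h₁ m h₂ n : ℤ} {L : Finset ℤ} {x₁ x₂ : ℤ → ℤ} {c₁ c₂ : Fin 5 → ℤ}
    (E₂ : Emb h₂ n L x₂ c₂) (z : ℤ) {δ : ℤ} (S : S1 h₁ m L x₁ c₁ δ)
    (hcov : ∀ y ∈ L, Own h₁ m x₁ c₁ y ∨ Own h₂ n x₂ c₂ y ∨ y = z)
    (hdis : ∀ y, Own h₁ m x₁ c₁ y → ¬ Own h₂ n x₂ c₂ y)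
    (i : ℤ) (hi : core h₂ n i) :
    (nu (L.filter (fun y => Own h₂ n x₂ c₂ y)) (x₂ i) : ℤ) ≤ i + 15 := by
  obtain ⟨fwd, bwd, -⟩ := S.stage2
  have hh := S.hh
  have hδ := S.dpos
  obtain ⟨R, hRdef⟩ : ∃ R : Finset ℤ, R = L.filter (fun w => Own h₂ n x₂ c₂ w ∧ w + x₂ i ∈ L ∧
    ¬ Own h₂ n x₂ c₂ (w + x₂ i)) := ⟨_, rfl⟩
  have h1 := nu_bound E₂ (L.filter (fun y => Own h₂ n x₂ c₂ y)) (filter_subset _ _) i hi R (by
    intro w hw h1 h2
    rw [mem_filter] at hw h1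
    rw [hRdef, mem_filter]
    have h3 : w + x₂ i ∈ L := by
      rcases h2 with h2 | h2
      · exact absurd hw.2 h2
      · exact h2
    exact ⟨hw.1, hw.2, h3, fun h4 => h1 ⟨h3, h4⟩⟩)
  obtain ⟨R', hR'def⟩ : ∃ R' : Finset ℤ, R' = R.filter (fun w => ∃ e, core h₁ m e ∧
    w + x₂ i = e * δ) := ⟨_, rfl⟩
  have hR' : R'.card ≤ 2 := by
    by_contra hcon
    push Not at hcon
    obtain ⟨w₁, w₂, w₃, hw₁, hw₂, hw₃, n12, n13, n23⟩ := two_lt_card_iff.1 hcon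
    -- pairwise differences
    have pair : ∀ w w' e e' : ℤ, w ∈ R' → w' ∈ R' → core h₁ m e → core h₁ m e' →
        w + x₂ i = e * δ → w' + x₂ i = e' * δ → e < e' → e' - e = h₁ ∨ e' - e = h₁ + 1 := by
      intro w w' e e' hw hw' he he' hwe hwe' hlt
      by_contra hno
      have hc : core h₁ m (e' - e) := by
        unfold core at he he' ⊢
        omega
      obtain ⟨k, hk, hke⟩ := fwd _ hc
      rw [hR'def, mem_filter, hRdef, mem_filter] at hw hw'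
      apply S.cross (x₁ k) w (Or.inl ⟨k, hk, rfl⟩) hw.1.1 (fun h => hdis w h hw.1.2.1)
      rw [hke]
      have : (e' - e) * δ + w = w' := by linarith
      rw [this]
      exact hw'.1.1
    have form : ∀ w ∈ R', ∃ e, core h₁ m e ∧ w + x₂ i = e * δ := by
      intro w hw
      rw [hR'def, mem_filter] at hw
      exact hw.2
    obtain ⟨e₁, he₁, hwe₁⟩ := form w₁ hw₁
    obtain ⟨e₂, he₂, hwe₂⟩ := form w₂ hw₂
    obtain ⟨e₃, he₃, hwe₃⟩ := form w₃ hw₃
    have ne12 : e₁ ≠ e₂ := by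
      intro h; rw [h, ← hwe₂] at hwe₁; exact n12 (by linarith)
    have ne13 : e₁ ≠ e₃ := by
      intro h; rw [h, ← hwe₃] at hwe₁; exact n13 (by linarith)
    have ne23 : e₂ ≠ e₃ := by
      intro h; rw [h, ← hwe₃] at hwe₂; exact n23 (by linarith)
    have p12 := pair w₁ w₂ e₁ e₂ hw₁ hw₂ he₁ he₂ hwe₁ hwe₂
    have p21 := pair w₂ w₁ e₂ e₁ hw₂ hw₁ he₂ he₁ hwe₂ hwe₁
    have p13 := pair w₁ w₃ e₁ e₃ hw₁ hw₃ he₁ he₃ hwe₁ hwe₃
    have p31 := pair w₃ w₁ e₃ e₁ hw₃ hw₁ he₃ he₁ hwe₃ hwe₁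
    have p23 := pair w₂ w₃ e₂ e₃ hw₂ hw₃ he₂ he₃ hwe₂ hwe₃
    have p32 := pair w₃ w₂ e₃ e₂ hw₃ hw₂ he₃ he₂ hwe₃ hwe₂
    omega
  have hRsub : R ⊆ (({z} ∪ (univ : Finset (Fin 5)).image c₁ : Finset ℤ).image
      (fun y => y - x₂ i)) ∪ R' := by
    intro w hw
    have hw' := hw
    rw [hRdef, mem_filter] at hw'
    obtain ⟨hwL, hw2, hwxL, hwx2⟩ := hw'
    rw [mem_union]
    rcases hcov _ hwxL with h | h | h
    · rcases h with ⟨k, hk, hke⟩ | ⟨r, hr⟩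
      · right
        obtain ⟨j, hj, hje⟩ := bwd k hk
        rw [hR'def, mem_filter]
        exact ⟨hw, j, hj, by rw [hke, hje]⟩
      · left
        rw [mem_image]
        refine ⟨c₁ r, ?_, by rw [← hr]; ring⟩
        rw [mem_union]
        right
        exact mem_image_of_mem _ (mem_univ r)
    · exact absurd h hwx2
    · left
      rw [mem_image]
      exact ⟨z, by rw [mem_union, mem_singleton]; left; rfl, by rw [← h]; ring⟩
  have h2 := card_le_card hRsub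
  have h3 := card_union_le (({z} ∪ (univ : Finset (Fin 5)).image c₁ : Finset ℤ).image
      (fun y => y - x₂ i)) R'
  have h4 : (({z} ∪ (univ : Finset (Fin 5)).image c₁ : Finset ℤ).image
      (fun y => y - x₂ i)).card ≤ ({z} ∪ (univ : Finset (Fin 5)).image c₁ : Finset ℤ).card :=
    card_image_le
  have h5 := card_union_le {z} ((univ : Finset (Fin 5)).image c₁)
  have h6 : ((univ : Finset (Fin 5)).image c₁).card ≤ 5 := by
    refine card_image_le.trans ?_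
    simp
  rw [card_singleton] at h5
  omega

lemma sh_div3 (h : ℤ) (h3 : 3 ∣ h) (r : Fin 5) : ∃ t, 33 + 2 * sh h r = 3 * t := by
  obtain ⟨k, rfl⟩ := h3
  fin_cases r
  · exact ⟨11, by simp⟩
  · exact ⟨2 * k - 11, by simp; ring⟩
  · exact ⟨2 * k - 7, by simp; ring⟩
  · exact ⟨2 * k - 1, by simp; ring⟩
  · exact ⟨2 * k + 7, by simp; ring⟩

lemma sh_upper (h : ℤ) (hh : 80 ≤ h) (r : Fin 5) : 33 + 2 * sh h r ≤ 2 * h + 21 := by
  fin_cases r <;> simp <;> omega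

/-- the sum `n δ₂` is not a label of the first graph -/
lemma not_other {h₁ m h₂ n : ℤ} {L : Finset ℤ} {x₁ x₂ : ℤ → ℤ} {c₁ c₂ : Fin 5 → ℤ}
    {δ₁ δ₂ : ℤ} (R₁ : Rigid h₁ m L x₁ c₁ δ₁) (R₂ : Rigid h₂ n L x₂ c₂ δ₂)
    (hdis : ∀ y, Own h₂ n x₂ c₂ y → ¬ Own h₁ m x₁ c₁ y)
    (hh1 : 80 ≤ h₁) (h31 : 3 ∣ h₁) (hm : 20 * (h₁ + 10) ≤ m) (hh2 : 80 ≤ h₂)
    (hn : 20 * (h₂ + 10) ≤ n)
    (h6 : 6 ∣ n) : ¬ Own h₁ m x₁ c₁ (n * δ₂) := by
  intro hown
  obtain ⟨k, hk⟩ := h6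
  rcases R₁.ownForm _ hown with ⟨j, hj, hje⟩ | ⟨r, hr⟩
  · obtain ⟨a, b⟩ := R₂.coreIn (3 * k) (by unfold core; omega)
    have h1 := R₁.half _ a (hdis _ b) j (by rw [← hje, hk]; ring)
    have := hj.2.1
    omega
  · obtain ⟨t, ht⟩ := sh_div3 h₁ h31 r
    obtain ⟨a, b⟩ := R₂.coreIn (2 * k) (by unfold core; omega)
    have h1 := R₁.half _ a (hdis _ b) t (by
      rw [ht, hk] at hr
      linarith)
    have := sh_upper h₁ hh1 r
    omega

open Classical in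
theorem final {h₁ m h₂ n : ℤ} {L : Finset ℤ} {x₁ x₂ : ℤ → ℤ} {c₁ c₂ : Fin 5 → ℤ}
    (E₁ : Emb h₁ m L x₁ c₁) (E₂ : Emb h₂ n L x₂ c₂) (z : ℤ)
    (hcov : ∀ y ∈ L, Own h₁ m x₁ c₁ y ∨ Own h₂ n x₂ c₂ y ∨ y = z)
    (hdis : ∀ y, Own h₁ m x₁ c₁ y → ¬ Own h₂ n x₂ c₂ y)
    (hh2 : h₂ = 444) (hn1 : 9400 ≤ n) (hn6 : 6 ∣ n)
    (hnk : ((kap 524 * (kap 524 + 1) : ℕ) : ℤ) < n - 3)
    (hh1 : h₁ = 24 * (n + 12) + 84) (hm1 : 20 * (h₁ + (n + 12) + 10) ≤ m) (hm6 : 6 ∣ m)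
    (hmk : ((kap (h₁ + 4 * (n + 12) + 20).toNat * (kap (h₁ + 4 * (n + 12) + 20).toNat + 1)
      : ℕ) : ℤ) < m - 3) : False := by
  have C₁ : Ctx (n + 12) h₁ m L L x₁ c₁ := { E₁ with
    hg := by omega
    heven := ⟨12 * (n + 12) + 42, by omega⟩
    hh := by omega
    hm := by omega
    hML := Subset.refl L
    hxM := E₁.xmem
    hnu := fun i hi => nu_first E₁ z (by omega) hcov i hi
    hcard := by
      have h1 := card_lower E₁ L E₁.xmem
      have h2 := lt_of_lt_of_le hmk h1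
      exact_mod_cast h2 }
  obtain ⟨δ₁, S₁⟩ := C₁.toS1
  have R₁ := S₁.rigid
  have hM2 : ∀ i, core h₂ n i → x₂ i ∈ L.filter (fun y => Own h₂ n x₂ c₂ y) := by
    intro i hi
    rw [mem_filter]
    exact ⟨E₂.xmem i hi, Or.inl ⟨i, hi, rfl⟩⟩
  have C₂ : Ctx 15 h₂ n L (L.filter (fun y => Own h₂ n x₂ c₂ y)) x₂ c₂ := { E₂ with
    hg := by omega
    heven := ⟨222, by omega⟩
    hh := by omega
    hm := by omega
    hML := filter_subset _ _
    hxM := hM2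
    hnu := fun i hi => nu_second E₂ z S₁ hcov hdis i hi
    hcard := by
      have h1 := card_lower E₂ (L.filter (fun y => Own h₂ n x₂ c₂ y)) hM2
      have h2 := lt_of_lt_of_le hnk h1
      have h3 : (h₂ + 4 * 15 + 20).toNat = 524 := by
        rw [hh2]; rfl
      rw [h3]
      exact_mod_cast h2 }
  obtain ⟨δ₂, S₂⟩ := C₂.toS1
  have R₂ := S₂.rigid
  have hdis' : ∀ y, Own h₂ n x₂ c₂ y → ¬ Own h₁ m x₁ c₁ y := fun y h2 h1 => hdis y h1 h2
  have a1 := not_other R₁ R₂ hdis' (by omega) ⟨8 * (n + 12) + 28, by omega⟩ (by omega)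
    (by omega) (by omega) hn6
  have a2 := not_other R₂ R₁ hdis (by omega) ⟨148, by omega⟩ (by omega)
    (by omega) (by omega) hm6
  have b1 : n * δ₂ = z := by
    rcases hcov _ R₂.top with h | h | h
    · exact absurd h a1
    · exact absurd h R₂.topNot
    · exact h
  have b2 : m * δ₁ = z := by
    rcases hcov _ R₁.top with h | h | h
    · exact absurd h R₁.topNot
    · exact absurd h a2
    · exact h
  obtain ⟨k, hk⟩ := hn6
  obtain ⟨a, b⟩ := R₂.coreIn (3 * k) (by unfold core; omega)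
  have h1 := R₁.half _ a (hdis' _ b) m (by rw [b2, ← b1, hk]; ring)
  omega

end MPa7f73e
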