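import Mathlib
import Pool.Agent.MPa7f73e.Defs

/-!
# General facts on sum graphs
-/

namespace MPa7f73e

/-- a finite nonempty graph without isolated vertices is not a sum graph -/
lemma not_isSumGraph {U : Type} [Finite U] [Nonempty U] (H : SimpleGraph U)
    (hno : ∀ v, ∃ u, H.Adj v u) : ¬ IsSumGraph H := by
  rintro ⟨l, -, lpos, ladj⟩
  obtain ⟨v, hv⟩ := Finite.exists_max l
  obtain ⟨u, hu⟩ := hno v
  obtain ⟨w, hw⟩ := (ladj v u hu.ne).1 hu
  have h1 := hv w
  have h2 := lpos u
  omega

lemma IsSumGraph.iso {U W : Type} {H : SimpleGraph U} {K : SimpleGraph W} (e : K ≃g H)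
    (hH : IsSumGraph H) : IsSumGraph K := by
  obtain ⟨l, linj, lpos, ladj⟩ := hH
  refine ⟨fun w => l (e w), linj.comp e.injective, fun w => lpos _, ?_⟩
  intro u v huv
  rw [← e.map_adj_iff, ladj (e u) (e v) (fun hcon => huv (e.injective hcon))]
  constructor
  · rintro ⟨w, hw⟩
    exact ⟨e.symm w, by simpa using hw⟩
  · rintro ⟨w, hw⟩
    exact ⟨e w, hw⟩

lemma IsSumGraph.sum {U W : Type} [Finite U] [Finite W] {H : SimpleGraph U}
    {K : SimpleGraph W} (hH : IsSumGraph H) (hK : IsSumGraph K) : IsSumGraph (H ⊕g K) := by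
  obtain ⟨l, linj, lpos, ladj⟩ := hH
  obtain ⟨k, kinj, kpos, kadj⟩ := hK
  obtain ⟨B1, hB1⟩ := (Set.finite_range l).bddAbove
  obtain ⟨B2, hB2⟩ := (Set.finite_range k).bddAbove
  obtain ⟨B, hBdef⟩ : ∃ B, B = max B1 B2 + 1 := ⟨_, rfl⟩
  have hl : ∀ u, l u < B := by
    intro u
    have h1 : l u ≤ B1 := hB1 ⟨u, rfl⟩
    have h2 := le_max_left B1 B2
    omega
  have hk : ∀ u, k u < B := by
    intro u
    have h1 : k u ≤ B2 := hB2 ⟨u, rfl⟩
    have h2 := le_max_right B1 B2
    omega
  -- no nonzero small multiple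
  have nk : ∀ w t, k w ≠ B * t := by
    intro w t ht
    have h1 : B ∣ k w := ⟨t, ht⟩
    have h2 := Int.le_of_dvd (kpos w) h1
    have h3 := hk w
    omega
  have nl : ∀ u t, l u ≠ (B + 1) * t := by
    intro u t ht
    have h1 : (B + 1) ∣ l u := ⟨t, ht⟩
    have h2 := Int.le_of_dvd (lpos u) h1
    have h3 := hl u
    omega
  refine ⟨Sum.elim (fun u => B * l u) (fun w => (B + 1) * k w), ?_, ?_, ?_⟩
  · rintro (u | u) (v | v) huv
    · simp only [Sum.elim_inl] at huv
      have hBpos : B ≠ 0 := by
        have h1 := hl u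
        have h2 := lpos u
        omega
      rw [linj (mul_left_cancel₀ hBpos huv)]
    · simp only [Sum.elim_inl, Sum.elim_inr] at huv
      exact absurd (show k v = B * (l u - k v) by linarith) (nk _ _)
    · simp only [Sum.elim_inl, Sum.elim_inr] at huv
      exact absurd (show k u = B * (l v - k u) by linarith) (nk _ _)
    · simp only [Sum.elim_inr] at huv
      have hBpos : B + 1 ≠ 0 := by
        have h1 := hk u
        have h2 := kpos u
        omega
      rw [kinj (mul_left_cancel₀ hBpos huv)]
  · rintro (u | u)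
    · simp only [Sum.elim_inl]
      have h1 := hl u
      have h2 := lpos u
      have h3 : 0 < B := by omega
      positivity
    · simp only [Sum.elim_inr]
      have h1 := hk u
      have h2 := kpos u
      have h3 : 0 < B := by omega
      positivity
  · rintro (u | u) (v | v) huv
    · rw [SimpleGraph.sum_adj_inl, ladj u v (fun hcon => huv (by rw [hcon]))]
      simp only [Sum.elim_inl]
      constructor
      · rintro ⟨w, hw⟩
        exact ⟨Sum.inl w, by simp only [Sum.elim_inl]; rw [← hw]; ring⟩
      · rintro ⟨(w | w), hw⟩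
        · simp only [Sum.elim_inl] at hw
          have hBpos : B ≠ 0 := by
            have h1 := hl u
            have h2 := lpos u
            omega
          refine ⟨w, mul_left_cancel₀ hBpos ?_⟩
          rw [← hw]; ring
        · simp only [Sum.elim_inr] at hw
          exact absurd (show k w = B * (l u + l v - k w) by linarith) (nk _ _)
    · constructor
      · intro hadj; simp at hadj
      · rintro ⟨(w | w), hw⟩
        · simp only [Sum.elim_inl, Sum.elim_inr] at hw
          exact absurd (show k v = B * (l w - l u - k v) by linarith) (nk _ _)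
        · simp only [Sum.elim_inl, Sum.elim_inr] at hw
          exact absurd (show l u = (B + 1) * (l u + k v - k w) by linarith) (nl _ _)
    · constructor
      · intro hadj; simp at hadj
      · rintro ⟨(w | w), hw⟩
        · simp only [Sum.elim_inl, Sum.elim_inr] at hw
          exact absurd (show k u = B * (l w - l v - k u) by linarith) (nk _ _)
        · simp only [Sum.elim_inl, Sum.elim_inr] at hw
          exact absurd (show l v = (B + 1) * (l v + k u - k w) by linarith) (nl _ _)
    · rw [SimpleGraph.sum_adj_inr, kadj u v (fun hcon => huv (by rw [hcon]))]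
      simp only [Sum.elim_inr]
      constructor
      · rintro ⟨w, hw⟩
        exact ⟨Sum.inr w, by simp only [Sum.elim_inr]; rw [← hw]; ring⟩
      · rintro ⟨(w | w), hw⟩
        · simp only [Sum.elim_inl] at hw
          exact absurd (show l w = (B + 1) * (l w - k u - k v) by linarith) (nl _ _)
        · simp only [Sum.elim_inr] at hw
          have hBpos : B + 1 ≠ 0 := by
            have h1 := hk u
            have h2 := kpos u
            omega
          refine ⟨w, mul_left_cancel₀ hBpos ?_⟩
          rw [← hw]; ring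

/-- rearranging the isolated vertices -/
def fwd2 {V W : Type} : (V ⊕ W) ⊕ Fin 2 → (V ⊕ Fin 1) ⊕ (W ⊕ Fin 1)
  | Sum.inl (Sum.inl v) => Sum.inl (Sum.inl v)
  | Sum.inl (Sum.inr w) => Sum.inr (Sum.inl w)
  | Sum.inr r => if r = 0 then Sum.inl (Sum.inr 0) else Sum.inr (Sum.inr 0)

/-- rearranging the isolated vertices, backwards -/
def bwd2 {V W : Type} : (V ⊕ Fin 1) ⊕ (W ⊕ Fin 1) → (V ⊕ W) ⊕ Fin 2
  | Sum.inl (Sum.inl v) => Sum.inl (Sum.inl v)
  | Sum.inl (Sum.inr _) => Sum.inr 0
  | Sum.inr (Sum.inl w) => Sum.inl (Sum.inr w)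
  | Sum.inr (Sum.inr _) => Sum.inr 1

/-- rearranging the isolated vertices, as an isomorphism of graphs -/
def isoTwo {V W : Type} (G : SimpleGraph V) (H : SimpleGraph W) :
    ((G ⊕g H) ⊕g (⊥ : SimpleGraph (Fin 2))) ≃g
      ((G ⊕g (⊥ : SimpleGraph (Fin 1))) ⊕g (H ⊕g (⊥ : SimpleGraph (Fin 1)))) where
  toFun := fwd2
  invFun := bwd2
  left_inv := by
    rintro ((u | u) | u)
    · rfl
    · rfl
    · fin_cases u <;> rfl
  right_inv := by
    rintro ((u | u) | (u | u))
    · rfl
    · have : u = 0 := Subsingleton.elim _ _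
      subst this
      rfl
    · rfl
    · have : u = 0 := Subsingleton.elim _ _
      subst this
      rfl
  map_rel_iff' := by
    rintro ((u | u) | u) ((v | v) | v)
    · simp [fwd2]
    · simp [fwd2]
    · fin_cases v <;> simp [fwd2]
    · simp [fwd2]
    · simp [fwd2]
    · fin_cases v <;> simp [fwd2]
    · fin_cases u <;> simp [fwd2]
    · fin_cases u <;> simp [fwd2]
    · fin_cases u <;> fin_cases v <;> simp [fwd2]

end MPa7f73e
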